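import Pool.Agent.H76.FL.Hul
import Pool.Agent.H75.CO.Kap
import Pool.Agent.H75.CO.Enu

/-!
# H76 FL, Trm: windows of CORE are values of lattice terms of bounded size (C3)
-/

set_option autoImplicit false

namespace Pool.Agent.H76.FL

open Pool.Agent.H54.TT Pool.Agent.H25.DI
open Pool.Agent.H98.RH hiding LT
open scoped Pointwise

section

variable {K : Type} [Field K] {v : K → ℤ} {hv : IsDV v} {π : Kˣ} {n : ℕ}

/-- the two definitions of balls -/
theorem cbl_eq (M : Submodule (Ov hv) (Fin n → K)) (t : ℝ) : H75.CO.bl π M t = bl hv π M ⌊t⌋ := by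
  unfold H75.CO.bl H75.CO.sh bl
  rw [sc_eq_map]

theorem isSb_of {W : Submodule (Ov hv) (Fin n → K)} (hW : H75.CO.IsSub W) : IsSb W := by
  intro c
  ext x
  rw [mem_sc]
  constructor
  · intro h
    have := hW (c : K) _ h
    rwa [smul_smul, Units.mul_inv, one_smul] at this
  · exact fun h => hW _ _ h

theorem ts_tl {G : Type} [Group G] {S : Set G} {m C j : ℕ} : TS (S ^ m) C j ⊆ H75.CO.TL S m C j := by
  induction j with
  | zero => exact subset_rfl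
  | succ j ih =>
    rintro t (ht | ⟨a, ha, b, hb, h⟩)
    · exact Or.inl (ih ht)
    · exact Or.inr ⟨a, ih ha, b, ih hb, 0, by simp, Or.inr h⟩

theorem tl_mono {G : Type} [Group G] {S : Set G} {m C j j' : ℕ} (h : j ≤ j') : H75.CO.TL S m C j ⊆ H75.CO.TL S m C j' := by
  induction h with
  | refl => exact subset_rfl
  | step _ ih => exact ih.trans Set.subset_union_left

variable {G : Type} [Group G] {ρ : G →* GL (Fin n) K} {S : Set G} {R : ℕ}

theorem cl_La (hs : H75.CO.Stp hv π ρ S R) {m T : ℕ} (hm : m ≤ T) {s : G} (hsm : s ∈ S ^ m) (x : ℝ) {C : ℕ}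
    (hC : |x| + 1 ≤ C) : Cl hv π (fun g : G => ρ g) (S ^ T) C 0 (H75.CO.bl π (H75.CO.La hv ρ s) x) := by
  rw [cbl_eq]
  refine cl_sym (hs.pow_mono hm hsm) _ ?_
  have h1 := abs_le.1 (show |x| ≤ C - 1 by linarith)
  rw [abs_le]
  constructor
  · have : ((-(C : ℤ) : ℤ) : ℝ) ≤ x := by push_cast; linarith
    exact Int.le_floor.2 this
  · have : (⌊x⌋ : ℝ) ≤ (C : ℤ) := by
      refine (Int.floor_le x).trans ?_
      push_cast
      linarith
    exact_mod_cast this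

theorem cl_one (hs : H75.CO.Stp hv π ρ S R) (T : ℕ) :
    Cl hv π (fun g : G => ρ g) (S ^ T) 0 0 (H75.CO.La hv ρ 1) := by
  have h := cl_sym (hv := hv) (π := π) (ρ := fun g : G => ρ g) (P := S ^ T) (hs.one_mem T) 0 (N := 0) (by simp)
  rw [bl_zero] at h
  exact h

/-- the lattices of the group elements against the lattice of `1` -/
theorem La_bl (hs : H75.CO.Stp hv π ρ S R) {m : ℕ} {s : G} (hsm : s ∈ S ^ m) (x : ℝ) :
    H75.CO.bl π (H75.CO.La hv ρ s) x ≤ H75.CO.bl π (H75.CO.La hv ρ 1) (x + R * m) ∧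
      H75.CO.bl π (H75.CO.La hv ρ 1) (x - R * m) ≤ H75.CO.bl π (H75.CO.La hv ρ s) x := by
  have h1 := H75.CO.bl_La hs 1 hsm x
  have h2 := H75.CO.bl_La hs 1 hsm (x - R * m)
  rw [one_mul] at h1 h2
  refine ⟨h1.2, h2.1.trans (le_of_eq ?_)⟩
  congr 1
  ring

/-- the deep part of a level -/
theorem cl_lv (hs : H75.CO.Stp hv π ρ S R) {A c N : ℕ} {d : H75.CO.Dat n N} {B : ℝ → H75.CO.Lt hv n} (hB : H75.CO.Hn B)
    {W W1 : H75.CO.Lt hv n} (hW : H75.CO.IsSub W) (hne : W ≠ ⊥) (hl : H75.CO.Lv π ρ S A c 2 d 1 B W W1)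
    {T C C' J Mb N' : ℕ} (hMb : Mb = H75.CO.Ln A c (d.be - 2)) (hMT : Mb ≤ T)
    (hN' : (N' : ℝ) ≤ H75.CO.Ln A c d.b / 2 - 2 * H75.CO.Ln A c d.a) (hC : C + 2 * R * Mb ≤ C')
    (hC2 : R * Mb + H75.CO.Ln A c d.b + 2 ≤ C')
    (hA : ∀ X : ℕ, X ≤ 4 * R * Mb + H75.CO.Ln A c d.b + 2 →
      Cl hv π (fun g : G => ρ g) (S ^ T) C J (apx hv π (H75.CO.La hv ρ 1) W 0 X)) :
    Cl hv π (fun g : G => ρ g) (S ^ T) C' (J + (n + 4)) (apx hv π (H75.CO.La hv ρ 1) W1 0 N') := by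
  obtain ⟨T0, hT0⟩ : ∃ T0 : ℝ, T0 = H75.CO.Ln A c d.b / 2 := ⟨_, rfl⟩
  have hT0n : 0 ≤ T0 := by rw [hT0]; positivity
  obtain ⟨κ, hκ⟩ : ∃ κ : G → ℝ, κ = H75.CO.kap π ρ B W d.k 1 := ⟨_, rfl⟩
  have hlip : ∀ a ∈ S ^ Mb, |κ a - κ 1| ≤ R * Mb := by
    intro a ha
    have := H75.CO.kap_lip hs hB hW hne d.k 1 1 ha
    rwa [one_mul, ← hκ] at this
  have hfin := hs.fin_pow Mb
  have hR0 : (0 : ℝ) ≤ R * Mb := by positivity
  have hNn : (⌈T0⌉ : ℝ) < T0 + 1 := Int.ceil_lt_add_one T0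
  have hNn' : T0 ≤ (⌈T0⌉ : ℝ) := Int.le_ceil T0
  have hcn : 0 ≤ ⌈T0⌉ := Int.ceil_nonneg hT0n
  have hsup : (⨆ a ∈ hfin.toFinset, W ⊓ H75.CO.bl π (H75.CO.La hv ρ a) (κ 1 - T0 - κ a)) =
      H75.CO.hl π ρ S 1 Mb W κ (κ 1 - T0) := by
    unfold H75.CO.hl
    simp only [one_mul, Set.Finite.mem_toFinset]
  have hNb : (N' : ℤ) ≤ ⌈T0⌉ := by
    have : (N' : ℝ) ≤ (⌈T0⌉ : ℝ) := by
      have h0 : (0 : ℝ) ≤ 2 * H75.CO.Ln A c d.a := by positivity
      rw [← hT0] at hN'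
      linarith
    exact_mod_cast this
  have hcb : ⌈T0⌉ ≤ (H75.CO.Ln A c d.b : ℤ) := by
    rw [Int.ceil_le, hT0]
    push_cast
    have : (0 : ℝ) ≤ H75.CO.Ln A c d.b := by positivity
    linarith
  refine cl_deep (N := ⌈T0⌉ + 2 * R * Mb + 1) (y := 2 * R * Mb) (C := C) hs.unif (isSb_of hW) (by positivity)
    (by nlinarith [hNb, (by positivity : (0 : ℤ) ≤ 2 * R * Mb)]) hfin.toFinset
    ⟨1, hfin.mem_toFinset.2 (hs.one_mem Mb)⟩ (Λ := fun a => H75.CO.bl π (H75.CO.La hv ρ a) (κ 1 - T0 - κ a)) ?_ ?_ ?_ ?_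
    (cl_one hs T) ?_ ?_ ?_ ?_
  · intro a ha
    have ha' := hfin.mem_toFinset.1 ha
    refine le_trans ?_ (La_bl hs ha' _).2
    rw [cbl_eq]
    refine bl_mono hv hs.unif _ (Int.le_floor.2 ?_)
    have h1 := abs_le.1 (hlip a ha')
    push_cast
    linarith [h1.1, h1.2]
  · intro a ha
    have ha' := hfin.mem_toFinset.1 ha
    refine (La_bl hs ha' _).1.trans ?_
    rw [cbl_eq]
    refine bl_mono hv hs.unif _ ?_
    have h1 := abs_le.1 (hlip a ha')
    have h2 : (⌊κ 1 - T0 - κ a + R * Mb⌋ : ℝ) ≤ ((2 * R * Mb : ℤ) : ℝ) := by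
      refine (Int.floor_le _).trans ?_
      push_cast
      linarith [h1.1, h1.2]
    exact_mod_cast h2
  · rw [hsup]
    have := hl.t1
    rw [← hMb, ← hκ, ← hT0] at this
    exact this
  · rw [hsup]
    have := hl.t2 T0 (by rw [hT0])
    rw [← hMb, ← hκ] at this
    refine this.trans (sup_le_sup le_rfl ?_)
    rw [cbl_eq]
    refine bl_mono hv hs.unif _ ?_
    have h2 : (⌊2 * (H75.CO.Ln A c d.a : ℝ) - T0⌋ : ℝ) ≤ ((-(N' : ℤ) : ℤ) : ℝ) := by
      refine (Int.floor_le _).trans ?_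
      push_cast
      rw [← hT0] at hN'
      linarith
    exact_mod_cast h2
  · intro a ha
    have ha' := hfin.mem_toFinset.1 ha
    refine cl_La hs hMT ha' _ ?_
    have h1 := abs_le.1 (hlip a ha')
    have h3 : ((R * Mb + H75.CO.Ln A c d.b + 2 : ℕ) : ℝ) ≤ (C' : ℝ) := by exact_mod_cast hC2
    push_cast at h3
    have h4 : T0 ≤ (H75.CO.Ln A c d.b : ℝ) := by
      rw [hT0]
      have : (0 : ℝ) ≤ H75.CO.Ln A c d.b := by positivity
      linarith
    have h5 : |κ 1 - T0 - κ a| ≤ C' - 1 := by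
      rw [abs_le]
      constructor <;> linarith [h1.1, h1.2]
    linarith
  · have h1 := hA (⌈T0⌉ + 2 * R * Mb + 1 + 2 * R * Mb).toNat (by
      have : (⌈T0⌉ + 2 * R * Mb + 1 + 2 * R * Mb : ℤ) ≤ 4 * R * Mb + H75.CO.Ln A c d.b + 2 := by linarith
      have h2 := Int.toNat_le_toNat this
      refine h2.trans (le_of_eq ?_)
      rw [← Int.toNat_natCast (4 * R * Mb + H75.CO.Ln A c d.b + 2)]
      push_cast
      rfl)
    rwa [Int.toNat_of_nonneg (by positivity)] at h1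
  · rw [abs_of_nonneg (by positivity)]
    exact_mod_cast hC
  · have h1 : (N' : ℤ) ≤ H75.CO.Ln A c d.b := hNb.trans hcb
    have h2 : (H75.CO.Ln A c d.b : ℤ) ≤ C' := by
      have : H75.CO.Ln A c d.b ≤ C' := by omega
      exact_mod_cast this
    exact h1.trans h2

/-- a ball of the shape of a level -/
theorem cl_sp (hs : H75.CO.Stp hv π ρ S R) {A c N : ℕ} {d : H75.CO.Dat n N} {B : ℝ → H75.CO.Lt hv n} (hB : H75.CO.Hn B)
    {W W1 : H75.CO.Lt hv n} (hW : H75.CO.IsSub W) (hne : W ≠ ⊥) (hW1 : H75.CO.IsSub W1)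
    {T C C' J Ma E e Nf : ℕ} (hMa : Ma = H75.CO.Ln A c (d.a + 1)) (hMT : Ma ≤ T) {t : ℝ} (ht : |t| ≤ E)
    (heE : e ≤ E) (hNf : Nf ≤ E) (hC : C + E + 2 * R * Ma ≤ C') (hC2 : E + (R + 1) * Ma + 2 ≤ C')
    (hA : ∀ X : ℕ, X ≤ 2 * E + (4 * R + 1) * Ma + 1 →
      Cl hv π (fun g : G => ρ g) (S ^ T) C J (apx hv π (H75.CO.La hv ρ 1) W 0 X))
    (hA1 : ∀ X : ℕ, X ≤ 2 * E + (4 * R + 1) * Ma + 1 →
      Cl hv π (fun g : G => ρ g) (S ^ T) C J (apx hv π (H75.CO.La hv ρ 1) W1 0 X)) :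
    Cl hv π (fun g : G => ρ g) (S ^ T) C' (J + (n + 5))
      ((H75.CO.Sp π ρ S A c d 1 B W W1 t ⊓ bl hv π (H75.CO.La hv ρ 1) e) ⊔ bl hv π (H75.CO.La hv ρ 1) (-(Nf : ℤ))) := by
  classical
  obtain ⟨κ, hκ⟩ : ∃ κ : G → ℝ, κ = H75.CO.kap π ρ B W d.k 1 := ⟨_, rfl⟩
  have hlip : ∀ m : ℕ, ∀ a ∈ S ^ m, |κ a - κ 1| ≤ R * m := by
    intro m a ha
    have := H75.CO.kap_lip hs hB hW hne d.k 1 1 ha
    rwa [one_mul, ← hκ] at this
  have hfin := hs.fin_pow Ma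
  have hε0 : 0 ≤ H75.CO.ep n := by
    unfold H75.CO.ep
    positivity
  have hε1 : H75.CO.ep n ≤ 1 := by
    unfold H75.CO.ep
    rw [div_le_one (by positivity)]
    have h4 : (1 : ℝ) ≤ 4 ^ (n + 1) := one_le_pow₀ (by norm_num)
    have h5 : (1 : ℝ) ≤ 1000 * (n + 1) := by
      have : (0 : ℝ) ≤ n := Nat.cast_nonneg n
      linarith
    nlinarith
  obtain ⟨ht1, ht2⟩ := abs_le.1 ht
  let s : Finset (ℕ × G) := (Finset.range (Ma + 1) ×ˢ hfin.toFinset).filter fun p => p.2 ∈ S ^ p.1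
  have hmem : ∀ p : ℕ × G, p ∈ s ↔ p.1 ≤ Ma ∧ p.2 ∈ S ^ p.1 := by
    intro p
    rw [Finset.mem_filter, Finset.mem_product, Finset.mem_range, Set.Finite.mem_toFinset]
    constructor
    · rintro ⟨⟨h1, h2⟩, h3⟩
      exact ⟨by omega, h3⟩
    · rintro ⟨h1, h3⟩
      exact ⟨⟨by omega, hs.pow_mono h1 h3⟩, h3⟩
  have hsup : (⨆ p ∈ s, W ⊓ H75.CO.bl π (H75.CO.La hv ρ p.2) (κ 1 + t - H75.CO.ep n * p.1 - κ p.2)) ⊔ W1 =
      H75.CO.Sp π ρ S A c d 1 B W W1 t := by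
    unfold H75.CO.Sp H75.CO.Fb
    rw [← hκ, ← hMa]
    congr 1
    apply le_antisymm
    · refine iSup₂_le fun p hp => ?_
      obtain ⟨h1, h2⟩ := (hmem p).1 hp
      refine le_iSup₂_of_le p.1 (Finset.mem_range.2 (by omega)) ?_
      unfold H75.CO.hl
      refine le_iSup₂_of_le p.2 h2 ?_
      rw [one_mul]
    · refine iSup₂_le fun m hm => ?_
      unfold H75.CO.hl
      refine iSup₂_le fun a ha => ?_
      rw [one_mul]
      exact le_iSup₂_of_le (m, a) ((hmem (m, a)).2 ⟨by have := Finset.mem_range.1 hm; omega, ha⟩) le_rfl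
  have hbd : ∀ p ∈ s, |κ p.2 - κ 1| ≤ R * p.1 ∧ (p.1 : ℝ) ≤ Ma ∧ 0 ≤ H75.CO.ep n * p.1 ∧ H75.CO.ep n * p.1 ≤ Ma ∧
      (R : ℝ) * p.1 ≤ R * Ma := by
    intro p hp
    obtain ⟨h1, h2⟩ := (hmem p).1 hp
    have h3 : (p.1 : ℝ) ≤ Ma := by exact_mod_cast h1
    have h0 : (0 : ℝ) ≤ p.1 := Nat.cast_nonneg _
    refine ⟨hlip _ _ h2, h3, by positivity, ?_, mul_le_mul_of_nonneg_left h3 (Nat.cast_nonneg R)⟩
    calc H75.CO.ep n * p.1 ≤ 1 * p.1 := mul_le_mul_of_nonneg_right hε1 h0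
      _ ≤ Ma := by rw [one_mul]; exact h3
  rw [← hsup]
  have hRM : (0 : ℝ) ≤ R * Ma := by positivity
  refine cl_shape (N := E + (2 * R + 1) * Ma + 1) (y := E + 2 * R * Ma) (C := C) hs.unif (isSb_of hW) (isSb_of hW1)
    (by have : (0 : ℤ) ≤ (2 * R + 1) * Ma := by positivity
        have h2 : (Nf : ℤ) ≤ E := by exact_mod_cast hNf
        linarith)
    (by have : (0 : ℤ) ≤ 2 * R * Ma := by positivity
        have h2 : (e : ℤ) ≤ E := by exact_mod_cast heE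
        linarith)
    (by have h1 : (0 : ℤ) ≤ Nf := by positivity
        have h2 : (0 : ℤ) ≤ e := by positivity
        linarith) s
    ⟨(0, 1), (hmem (0, 1)).2 ⟨Nat.zero_le _, hs.one_mem 0⟩⟩
    (Λ := fun p => H75.CO.bl π (H75.CO.La hv ρ p.2) (κ 1 + t - H75.CO.ep n * p.1 - κ p.2)) ?_ ?_
    (cl_one hs T) ?_ ?_ ?_ ?_ ?_ ?_
  · intro p hp
    obtain ⟨h1, h2, h3, h4, h5⟩ := hbd p hp
    obtain ⟨h6, h7⟩ := abs_le.1 h1
    refine le_trans ?_ (La_bl hs ((hmem p).1 hp).2 _).2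
    rw [cbl_eq]
    refine bl_mono hv hs.unif _ (Int.le_floor.2 ?_)
    push_cast
    linarith
  · intro p hp
    obtain ⟨h1, h2, h3, h4, h5⟩ := hbd p hp
    obtain ⟨h6, h7⟩ := abs_le.1 h1
    refine (La_bl hs ((hmem p).1 hp).2 _).1.trans ?_
    rw [cbl_eq]
    refine bl_mono hv hs.unif _ ?_
    have h8 : (⌊κ 1 + t - H75.CO.ep n * p.1 - κ p.2 + R * p.1⌋ : ℝ) ≤ ((E + 2 * R * Ma : ℤ) : ℝ) := by
      refine (Int.floor_le _).trans ?_
      push_cast
      linarith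
    exact_mod_cast h8
  · intro p hp
    obtain ⟨h1, h2, h3, h4, h5⟩ := hbd p hp
    obtain ⟨h6, h7⟩ := abs_le.1 h1
    obtain ⟨h8, h9⟩ := (hmem p).1 hp
    refine cl_La hs (h8.trans hMT) h9 _ ?_
    have h10 : ((E + (R + 1) * Ma + 2 : ℕ) : ℝ) ≤ (C' : ℝ) := by exact_mod_cast hC2
    push_cast at h10
    have h11 : |κ 1 + t - H75.CO.ep n * p.1 - κ p.2| ≤ C' - 1 := by
      rw [abs_le]
      constructor <;> linarith
    linarith
  · have h1 := hA (2 * E + (4 * R + 1) * Ma + 1) le_rfl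
    have h2 : ((2 * E + (4 * R + 1) * Ma + 1 : ℕ) : ℤ) = E + (2 * R + 1) * Ma + 1 + (E + 2 * R * Ma) := by
      push_cast
      ring
    rwa [h2] at h1
  · have h1 := hA1 (2 * E + (4 * R + 1) * Ma + 1) le_rfl
    have h2 : ((2 * E + (4 * R + 1) * Ma + 1 : ℕ) : ℤ) = E + (2 * R + 1) * Ma + 1 + (E + 2 * R * Ma) := by
      push_cast
      ring
    rwa [h2] at h1
  · rw [abs_of_nonneg (by positivity)]
    have : C + (E + 2 * R * Ma) ≤ C' := by omega
    exact_mod_cast this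
  · rw [abs_of_nonneg (by positivity)]
    have : e ≤ C' := by omega
    exact_mod_cast this
  · rw [abs_of_nonneg (by positivity)]
    have : Nf ≤ C' := by omega
    exact_mod_cast this

theorem sp_per {A c N : ℕ} {d : H75.CO.Dat n N} {g : G} {B : ℝ → H75.CO.Lt hv n} {W W1 : H75.CO.Lt hv n}
    (hW : H75.CO.IsSub W) (hW1 : H75.CO.IsSub W1) (t : ℝ) : H75.CO.Sp π ρ S A c d g B W W1 (t + 1) =
      H75.CO.sh π (-1) (H75.CO.Sp π ρ S A c d g B W W1 t) := by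
  unfold H75.CO.Sp H75.CO.Fb H75.CO.hl
  rw [H75.CO.sh_sup, H75.CO.sh_sub hW1]
  congr 1
  simp only [H75.CO.sh_iSup, H75.CO.sh_inf, H75.CO.sh_sub hW]
  refine iSup_congr fun m => iSup_congr fun _ => iSup_congr fun a => iSup_congr fun _ => ?_
  congr 1
  have h := H75.CO.bl_add_int (π := π) (H75.CO.La hv ρ (g * a))
    (H75.CO.kap π ρ B W d.k g g + t - H75.CO.ep n * m - H75.CO.kap π ρ B W d.k g (g * a)) 1
  rw [← h]
  congr 1
  push_cast
  ring

theorem le_per {Φ : ℝ → H75.CO.Lt hv n} (h : ∀ t, Φ (t + 1) = H75.CO.sh π (-1) (Φ t)) (c x : ℝ) :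
    x + 1 ∈ H75.CO.Le Φ c ↔ x ∈ H75.CO.Le Φ c := by
  have e1 : x + 1 + c = x + c + 1 := by ring
  constructor
  · rintro ⟨h1, h2⟩
    refine ⟨?_, fun s hs h3 => h2 (s + 1) (by linarith) ?_⟩
    · rw [e1, h, h] at h1
      exact H75.CO.sh_inj.1 h1
    · rw [h, h, h3]
  · rintro ⟨h1, h2⟩
    refine ⟨?_, fun s hs h3 => h2 (s - 1) (by linarith) ?_⟩
    · rw [e1, h, h, h1]
    · have e2 : Φ s = H75.CO.sh π (-1) (Φ (s - 1)) := by
        rw [← h]
        congr 1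
        ring
      rw [e2, h] at h3
      exact H75.CO.sh_inj.1 h3

/-! ### scales -/

theorem ln_step (A c i : ℕ) : H75.CO.Ln A c (i + 1) = A * H75.CO.Ln A c i := by
  unfold H75.CO.Ln
  rw [pow_succ]
  ring

theorem ln_mono {A : ℕ} (hA : 1 ≤ A) (c : ℕ) {i j : ℕ} (h : i ≤ j) : H75.CO.Ln A c i ≤ H75.CO.Ln A c j := by
  unfold H75.CO.Ln
  exact Nat.mul_le_mul_right _ (Nat.pow_le_pow_right hA h)

theorem ln_lt {A : ℕ} (hA : 1 ≤ A) (c : ℕ) {i j : ℕ} (h : i < j) : A * H75.CO.Ln A c i ≤ H75.CO.Ln A c j := by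
  rw [← ln_step]
  exact ln_mono hA c h

theorem ln_zero (A c : ℕ) : H75.CO.Ln A c 0 = c := by
  unfold H75.CO.Ln
  rw [pow_zero, one_mul]

theorem c_le_ln {A : ℕ} (hA : 1 ≤ A) (c i : ℕ) : c ≤ H75.CO.Ln A c i := by
  have := ln_mono hA c (Nat.zero_le i)
  rwa [ln_zero] at this

theorem aa_ge (n R : ℕ) : 1000 * (n + 2) * (R + 1) ≤ H75.CO.AA n R := by
  unfold H75.CO.AA
  have h1 : 1 ≤ 4 ^ (n + 2) := Nat.one_le_pow _ _ (by norm_num)
  calc 1000 * (n + 2) * (R + 1) = 1000 * (n + 2) * 1 * (R + 1) := by ring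
    _ ≤ 10 ^ 6 * (n + 2) * 4 ^ (n + 2) * (R + 1) := by gcongr; norm_num

theorem aa_pos (n R : ℕ) : 1 ≤ H75.CO.AA n R := by
  refine le_trans ?_ (aa_ge n R)
  have : 1 ≤ (n + 2) * (R + 1) := Nat.one_le_iff_ne_zero.2 (by positivity)
  nlinarith

theorem be_anti {N r : ℕ} {d : ℕ → H75.CO.Dat n N} (hd : H75.CO.Rg r d) {l l' : ℕ} (h : l ≤ l') (hl : l' ≤ r) :
    ((d l').be : ℕ) ≤ (d l).be := by
  induction h with
  | refl => exact le_rfl
  | @step m h ih =>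
    have h1 := ih (by omega)
    have h2 := (hd.c2 m (by omega)).2
    have h3 := (hd.c1 m (by omega)).2.2
    show ((d (m + 1)).be : ℕ) ≤ (d l).be
    omega

theorem bnd {n R r A : ℕ} (hA : 1000 * (n + 2) * (R + 1) ≤ A) (hr : r ≤ n) {c Γ Ma z : ℕ} (hΓ : Γ ≤ z) (hM : Ma ≤ z)
    (hc : c ≤ z) (h1 : 1 ≤ z) : 8 * (2 * ((r + 1) * Γ + c + 1) + (4 * R + 1) * Ma + 1) ≤ A * z := by
  have h2 : (r + 1) * Γ ≤ (r + 1) * z := Nat.mul_le_mul_left _ hΓ
  have h3 : (4 * R + 1) * Ma ≤ (4 * R + 1) * z := Nat.mul_le_mul_left _ hM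
  have h4 : 1000 * (n + 2) * (R + 1) * z ≤ A * z := Nat.mul_le_mul_right _ hA
  have h5 : r * z ≤ n * z := Nat.mul_le_mul_right _ hr
  have h6 : 0 ≤ n * R * z := Nat.zero_le _
  have h7 : 1000 * (n + 2) * (R + 1) * z = 1000 * (n * R * z) + 1000 * (n * z) + 2000 * (R * z) + 2000 * z := by ring
  have h8 : (r + 1) * z = r * z + z := by ring
  have h9 : (4 * R + 1) * z = 4 * (R * z) + z := by ring
  have h10 : 0 ≤ R * z := Nat.zero_le _
  omega

theorem bnd2 {n R A : ℕ} (hA : 1000 * (n + 2) * (R + 1) ≤ A) {x y z : ℕ} (hx : x ≤ z) (hy : y ≤ z)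
    (h1 : 1 ≤ z) : 8 * (4 * R * x + y + 2) ≤ A * z := by
  have h3 : 4 * R * x ≤ 4 * R * z := Nat.mul_le_mul_left _ hx
  have h4 : 1000 * (n + 2) * (R + 1) * z ≤ A * z := Nat.mul_le_mul_right _ hA
  have h7 : 1000 * (n + 2) * (R + 1) * z = 1000 * (n * R * z) + 1000 * (n * z) + 2000 * (R * z) + 2000 * z := by ring
  have h9 : 4 * R * z = 4 * (R * z) := by ring
  have h10 : 0 ≤ R * z := Nat.zero_le _
  have h11 : 0 ≤ n * R * z := Nat.zero_le _
  have h12 : 0 ≤ n * z := Nat.zero_le _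
  omega

theorem nn_pos (n : ℕ) : 1 ≤ H75.CO.NN n := by
  unfold H75.CO.NN
  exact Nat.one_le_iff_ne_zero.2 (by positivity)

/-- (C3) windows at `1` consist of values of lattice terms of bounded size -/
theorem weak_term (hn : 0 < n) (hs : H75.CO.Stp hv π ρ S R) {c : ℕ} (hc : 1 ≤ c) {r : ℕ}
    {d : ℕ → H75.CO.Dat n (H75.CO.NN n)} (hd : H75.CO.Rg r d) {B : ℝ → H75.CO.Lt hv n} (hB : H75.CO.Hn B)
    {f : (Fin (r + 1) → ℤ) → H75.CO.Lt hv n} (hf : H75.CO.Wk π ρ S (H75.CO.AA n R) c r d 1 B f)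
    {i : Fin (r + 1) → ℤ} (hi : ∀ l, |i l| ≤ c) :
    ∃ t ∈ H75.CO.TL S (H75.CO.Ln (H75.CO.AA n R) c (H75.CO.NN n)) (H75.CO.CC n R c) (H75.CO.JJ n),
      f i = ev hv π (fun g : G => ρ g) t := by
  obtain ⟨W, p, hT, hW⟩ := hf
  obtain ⟨A, hAd⟩ : ∃ A, A = H75.CO.AA n R := ⟨_, rfl⟩
  have hA1 : 1 ≤ A := hAd ▸ aa_pos n R
  have hAge : 1000 * (n + 2) * (R + 1) ≤ A := hAd ▸ aa_ge n R
  have hA1000 : 1000 ≤ A := by
    refine le_trans ?_ hAge
    have : 1 ≤ (n + 2) * (R + 1) := Nat.one_le_iff_ne_zero.2 (by positivity)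
    nlinarith
  have hCC : H75.CO.CC n R c = 10 * (R + 1) * H75.CO.Ln A c (H75.CO.NN n) := by rw [hAd]; rfl
  rw [← hAd] at hT hW ⊢
  rw [hCC]
  obtain ⟨T, hTd⟩ : ∃ T, T = H75.CO.Ln A c (H75.CO.NN n) := ⟨_, rfl⟩
  obtain ⟨Y, hYd⟩ : ∃ Y, Y = 2 * R * H75.CO.Ln A c (H75.CO.NN n - 1) := ⟨_, rfl⟩
  rw [← hTd]
  have hNN := nn_pos n
  have hcl : ∀ j, c ≤ H75.CO.Ln A c j := c_le_ln hA1 c
  have h1l : ∀ j, 1 ≤ H75.CO.Ln A c j := fun j => hc.trans (hcl j)
  have hltT : ∀ j, j < H75.CO.NN n → A * H75.CO.Ln A c j ≤ T := fun j hj => by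
    rw [hTd]
    exact ln_lt hA1 c hj
  have hnY : n * Y ≤ T := by
    have h1 := hltT (H75.CO.NN n - 1) (by omega)
    refine le_trans ?_ h1
    rw [hYd, ← mul_assoc]
    refine Nat.mul_le_mul_right _ (le_trans ?_ hAge)
    have h2 : 0 ≤ n * R := Nat.zero_le _
    have h3 : 1000 * (n + 2) * (R + 1) = 1000 * (n * R) + 1000 * n + 2000 * R + 2000 := by ring
    have h4 : n * (2 * R) = 2 * (n * R) := by ring
    omega
  have hlr := hd.lt
  -- the approximations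
  have key : ∀ l, l ≤ r → ∀ X : ℕ, X ≤ T → (∀ l', l = l' + 1 → 8 * X ≤ H75.CO.Ln A c (d l').b) →
      Cl hv π (fun g : G => ρ g) (S ^ T) (T + l * Y) (l * (n + 4)) (apx hv π (H75.CO.La hv ρ 1) (W l) 0 X) := by
    intro l
    induction l with
    | zero =>
      intro _ X _ _
      have e : apx hv π (H75.CO.La hv ρ 1) (W 0) 0 X = H75.CO.La hv ρ 1 := by
        unfold apx
        rw [hT.top, bl_zero, top_inf_eq]
        apply sup_eq_left.2
        have h := bl_mono hv hs.unif (H75.CO.La hv ρ 1) (show -(X : ℤ) ≤ 0 by omega)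
        rwa [bl_zero] at h
      rw [e]
      exact (cl_one hs T).mono (Nat.zero_le _) (Nat.zero_le _)
    | succ l ih =>
      intro hl X hX hX2
      have hl' : l ≤ r := by omega
      have hb := hd.c1 l hl'
      have hbe : ((d l).be : ℕ) < H75.CO.NN n := (d l).be.is_lt
      have hX3 := hX2 l rfl
      have hab : A * H75.CO.Ln A c (d l).a ≤ H75.CO.Ln A c (d l).b := ln_lt hA1 c (by omega)
      have hMT : H75.CO.Ln A c ((d l).be - 2) ≤ H75.CO.Ln A c (d l).be := ln_mono hA1 c (by omega)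
      have hbb : H75.CO.Ln A c (d l).b ≤ H75.CO.Ln A c (d l).be := ln_mono hA1 c (by omega)
      have hbT : A * H75.CO.Ln A c (d l).be ≤ T := hltT _ hbe
      have h8 := bnd2 hAge hMT hbb (h1l _)
      have hM2 : H75.CO.Ln A c ((d l).be - 2) ≤ H75.CO.Ln A c (H75.CO.NN n - 1) := ln_mono hA1 c (by omega)
      have hY2 : 2 * R * H75.CO.Ln A c ((d l).be - 2) ≤ Y := by
        rw [hYd]
        exact Nat.mul_le_mul_left _ hM2
      have h9 := cl_lv (T := T) (C := T + l * Y) (C' := T + (l + 1) * Y) (J := l * (n + 4)) (N' := X) hs hB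
        (hT.sub l hl') (hT.ne l hl') (hT.lv l hl') rfl (by
          have : H75.CO.Ln A c (d l).be ≤ A * H75.CO.Ln A c (d l).be := Nat.le_mul_of_pos_left _ hA1
          omega) (by
          have h1 : ((8 * X : ℕ) : ℝ) ≤ (H75.CO.Ln A c (d l).b : ℝ) := by exact_mod_cast hX3
          have h2 : ((1000 * H75.CO.Ln A c (d l).a : ℕ) : ℝ) ≤ (H75.CO.Ln A c (d l).b : ℝ) := by
            exact_mod_cast (Nat.mul_le_mul_right _ hA1000).trans hab
          push_cast at h1 h2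
          have h3 : (0 : ℝ) ≤ H75.CO.Ln A c (d l).a := Nat.cast_nonneg _
          linarith) (by
          rw [add_mul, one_mul]
          omega) (by
          have e1 : (l + 1) * Y = l * Y + Y := by ring
          have e2 : 2 * R * H75.CO.Ln A c ((d l).be - 2) = 2 * (R * H75.CO.Ln A c ((d l).be - 2)) := by ring
          have e3 : 4 * R * H75.CO.Ln A c ((d l).be - 2) = 4 * (R * H75.CO.Ln A c ((d l).be - 2)) := by ring
          rw [e1]
          rw [e2] at hY2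
          rw [e3] at h8
          omega) (by
          intro X' hX'
          refine ih hl' X' (by omega) ?_
          rintro l' rfl
          have hc2 := (hd.c2 l' (by omega)).2
          have h10 : A * H75.CO.Ln A c (d (l' + 1)).be ≤ H75.CO.Ln A c (d l').b := ln_lt hA1 c (by omega)
          omega)
      exact h9.mono le_rfl (le_of_eq (by ring))
  have key' : ∀ X : ℕ, X ≤ T →
      Cl hv π (fun g : G => ρ g) (S ^ T) T 0 (apx hv π (H75.CO.La hv ρ 1) (W (r + 1)) 0 X) := by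
    intro X hX
    have e : apx hv π (H75.CO.La hv ρ 1) (W (r + 1)) 0 X = bl hv π (H75.CO.La hv ρ 1) (-(X : ℤ)) := by
      unfold apx
      rw [hT.bot, bot_inf_eq, bot_sup_eq]
    rw [e]
    exact (cl_one hs T).bl _ (by rw [abs_neg, abs_of_nonneg (by positivity), Nat.cast_zero, zero_add]; exact_mod_cast hX)
  -- the summands
  obtain ⟨Γ, hΓd⟩ : ∃ Γ, Γ = H75.CO.Ln A c ((d r).be - 2) := ⟨_, rfl⟩
  have hGm : H75.CO.Gm A c r d = (Γ : ℝ) := by rw [hΓd]; rfl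
  obtain ⟨E, hEd⟩ : ∃ E, E = (r + 1) * Γ + c + 1 := ⟨_, rfl⟩
  have hsub : ∀ l, l ≤ r + 1 → H75.CO.IsSub (W l) := by
    intro l hl
    rcases Nat.lt_or_ge l (r + 1) with h | h
    · exact hT.sub l (by omega)
    · have : l = r + 1 := by omega
      rw [this, hT.bot]
      exact H75.CO.isSub_bot
  have hpos : ∀ l : Fin (r + 1), |p l (i l) - l * Γ| ≤ c + 1 := by
    intro l
    have hl : (l : ℕ) ≤ r := Nat.lt_succ_iff.1 l.is_lt
    have h := (hW.en l hl).pos (le_per (fun t => sp_per (hsub l (by omega)) (hsub (l + 1) (by omega)) t) _) (i l)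
    rw [hGm] at h
    refine h.trans ?_
    have h2 : ((|i l| : ℤ) : ℝ) ≤ ((c : ℤ) : ℝ) := by exact_mod_cast hi l
    rw [Int.cast_abs] at h2
    push_cast at h2
    linarith
  have hΓT : 8 * (2 * E + 1) ≤ T := by
    have h1 := bnd (Ma := 0) hAge hlr.le (show Γ ≤ H75.CO.Ln A c (d r).be by rw [hΓd]; exact ln_mono hA1 c (by omega))
      (Nat.zero_le _) (hcl _) (h1l _)
    have h2 := hltT (d r).be (d r).be.is_lt
    rw [hEd]
    omega
  have hsum : ∀ l : Fin (r + 1), Cl hv π (fun g : G => ρ g) (S ^ T) (10 * (R + 1) * T) (n * (n + 4) + (n + 5))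
      ((H75.CO.Sp π ρ S A c (d l) 1 B (W l) (W (l + 1)) (p l (i l)) ⊓
        H75.CO.bl π (H75.CO.La hv ρ 1) (l * H75.CO.Gm A c r d + H75.CO.Gm A c r d / 2)) ⊔
        bl hv π (H75.CO.La hv ρ 1) (-((c + 1 : ℕ) : ℤ))) := by
    intro l
    have hl : (l : ℕ) ≤ r := Nat.lt_succ_iff.1 l.is_lt
    have hbe : ((d l).be : ℕ) < H75.CO.NN n := (d l).be.is_lt
    have hb := hd.c1 l hl
    rw [cbl_eq, hGm]
    have hΓ0 : (0 : ℝ) ≤ Γ := Nat.cast_nonneg _
    have hl0 : (0 : ℝ) ≤ (l : ℕ) := Nat.cast_nonneg _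
    have hfl : 0 ≤ ⌊((l : ℕ) : ℝ) * Γ + Γ / 2⌋ := Int.floor_nonneg.2 (by positivity)
    obtain ⟨e, he⟩ : ∃ e : ℕ, (e : ℤ) = ⌊((l : ℕ) : ℝ) * Γ + Γ / 2⌋ := ⟨_, Int.toNat_of_nonneg hfl⟩
    rw [← he]
    have hΓl : Γ ≤ H75.CO.Ln A c (d l).be := by
      rw [hΓd]
      exact ln_mono hA1 c (by have := be_anti hd hl le_rfl; omega)
    have hal : H75.CO.Ln A c ((d l).a + 1) ≤ H75.CO.Ln A c (d l).be := ln_mono hA1 c (by omega)
    have hbT : A * H75.CO.Ln A c (d l).be ≤ T := hltT _ hbe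
    have hX1 := bnd hAge hlr.le hΓl hal (hcl _) (h1l _)
    rw [← hEd] at hX1
    have hrE : ((E : ℕ) : ℝ) = (r + 1) * Γ + c + 1 := by rw [hEd]; push_cast; ring
    have hlr' : ((l : ℕ) : ℝ) ≤ r := by exact_mod_cast hl
    have hlΓ : ((l : ℕ) : ℝ) * Γ ≤ r * Γ := mul_le_mul_of_nonneg_right hlr' hΓ0
    have hlΓ0 : 0 ≤ ((l : ℕ) : ℝ) * Γ := by positivity
    have hCl : (l : ℕ) * Y ≤ n * Y := Nat.mul_le_mul_right _ (by omega)
    have hJl : (l : ℕ) * (n + 4) ≤ n * (n + 4) := Nat.mul_le_mul_right _ (by omega)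
    have hRa : R * H75.CO.Ln A c ((d l).a + 1) ≤ (4 * R + 1) * H75.CO.Ln A c ((d l).a + 1) :=
      Nat.mul_le_mul_right _ (by omega)
    have hbig : 10 * (R + 1) * T = 10 * (R * T) + 10 * T := by ring
    have hRT : 0 ≤ R * T := Nat.zero_le _
    have e4 : (4 * R + 1) * H75.CO.Ln A c ((d l).a + 1) =
        4 * (R * H75.CO.Ln A c ((d l).a + 1)) + H75.CO.Ln A c ((d l).a + 1) := by ring
    have e5 : 2 * R * H75.CO.Ln A c ((d l).a + 1) = 2 * (R * H75.CO.Ln A c ((d l).a + 1)) := by ring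
    have e6 : (R + 1) * H75.CO.Ln A c ((d l).a + 1) =
        R * H75.CO.Ln A c ((d l).a + 1) + H75.CO.Ln A c ((d l).a + 1) := by ring
    refine cl_sp (T := T) (C := 2 * T) (J := n * (n + 4)) (E := E) (e := e) (Nf := c + 1) hs hB (hT.sub l hl)
      (hT.ne l hl) (hsub (l + 1) (by omega)) rfl (by
        rw [e4] at hX1
        omega) ?_ ?_ ?_ ?_ ?_ ?_ ?_
    · have h := abs_le.1 (hpos l)
      rw [abs_le, hrE]
      constructor <;> nlinarith [h.1, h.2]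
    · have h : (e : ℝ) ≤ (E : ℝ) := by
        have h1 : ((e : ℤ) : ℝ) ≤ ((l : ℕ) : ℝ) * Γ + Γ / 2 := by
          rw [he]
          exact Int.floor_le _
        push_cast at h1
        rw [hrE]
        have hc0 : (0 : ℝ) ≤ c := Nat.cast_nonneg _
        linarith
      exact_mod_cast h
    · rw [hEd]
      omega
    · rw [e5, hbig]
      rw [e4] at hX1
      omega
    · rw [e6, hbig]
      rw [e4] at hX1
      omega
    · intro X hX
      refine (key l hl X (by omega) ?_).mono (by omega) hJl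
      intro l' hl'
      have hc2 := (hd.c2 l' (by omega)).2
      have h10 : A * H75.CO.Ln A c (d l).be ≤ H75.CO.Ln A c (d l').b := ln_lt hA1 c (by rw [hl']; omega)
      omega
    · intro X hX
      rcases Nat.lt_or_ge (l : ℕ) r with h | h
      · refine (key (l + 1) h X (by omega) ?_).mono ?_ ?_
        · intro l' hl'
          have hl2 : l' = l := by omega
          subst hl2
          have hc2 := (hd.c2 (l : ℕ) h).2
          have hΓl' : Γ ≤ H75.CO.Ln A c ((d l).b - 1) := by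
            rw [hΓd]
            exact ln_mono hA1 c (by have := be_anti hd (show (l : ℕ) + 1 ≤ r from h) le_rfl; omega)
          have hal' : H75.CO.Ln A c ((d l).a + 1) ≤ H75.CO.Ln A c ((d l).b - 1) := ln_mono hA1 c (by omega)
          have h11 := bnd hAge hlr.le hΓl' hal' (hcl _) (h1l _)
          rw [← hEd] at h11
          have h10 : A * H75.CO.Ln A c ((d l).b - 1) ≤ H75.CO.Ln A c (d l).b := ln_lt hA1 c (by omega)
          omega
        · have : (l + 1 : ℕ) * Y ≤ n * Y := Nat.mul_le_mul_right _ (by omega)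
          omega
        · exact Nat.mul_le_mul_right _ (by omega)
      · have hlr2 : (l : ℕ) = r := by omega
        rw [hlr2]
        exact (key' X (by omega)).mono (by omega) (Nat.zero_le _)
  -- the sum
  have hfi : f i = ⨆ l ∈ (Finset.univ : Finset (Fin (r + 1))),
      ((H75.CO.Sp π ρ S A c (d l) 1 B (W l) (W (l + 1)) (p l (i l)) ⊓
        H75.CO.bl π (H75.CO.La hv ρ 1) (l * H75.CO.Gm A c r d + H75.CO.Gm A c r d / 2)) ⊔
        bl hv π (H75.CO.La hv ρ 1) (-((c + 1 : ℕ) : ℤ))) := by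
    rw [hW.eq i]
    apply le_antisymm
    · exact iSup_le fun l => le_iSup₂_of_le l (Finset.mem_univ l) le_sup_left
    · refine iSup₂_le fun l _ => sup_le (le_iSup_of_le l le_rfl) (le_iSup_of_le 0 (le_inf ?_ ?_))
      · have h0 := abs_le.1 (hpos 0)
        have e0 : ((((0 : Fin (r + 1)) : ℕ) : ℝ)) * Γ = 0 := by simp
        rw [e0, sub_zero] at h0
        unfold H75.CO.Sp H75.CO.Fb H75.CO.hl
        refine le_sup_of_le_left (le_iSup₂_of_le 0 (Finset.mem_range.2 (Nat.succ_pos _)) ?_)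
        refine le_iSup₂_of_le 1 (hs.one_mem 0) (le_inf ?_ ?_)
        · have : W (((0 : Fin (r + 1)) : ℕ)) = ⊤ := hT.top
          rw [this]
          exact le_top
        · rw [one_mul, cbl_eq]
          refine bl_mono hv hs.unif _ (Int.le_floor.2 ?_)
          push_cast
          have h1 := h0.1
          linarith
      · rw [cbl_eq, hGm]
        refine bl_mono hv hs.unif _ (Int.le_floor.2 ?_)
        have hΓ0 : (0 : ℝ) ≤ Γ := Nat.cast_nonneg _
        have e0 : ((((0 : Fin (r + 1)) : ℕ) : ℝ)) * Γ = 0 := by simp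
        rw [e0]
        push_cast
        have hc0 : (0 : ℝ) ≤ c := Nat.cast_nonneg _
        linarith
  have hfin := Cl.finsup (Finset.univ : Finset (Fin (r + 1))) ⟨0, Finset.mem_univ 0⟩ fun l _ => hsum l
  rw [← hfi, Finset.card_univ, Fintype.card_fin] at hfin
  obtain ⟨t, ht, e⟩ := hfin
  refine ⟨t, tl_mono ?_ (ts_tl ht), e.symm⟩
  unfold H75.CO.JJ
  nlinarith

end

end Pool.Agent.H76.FL
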