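import Pool.Agent.H76.FL.Sc

/-!
# H76 FL, Flat: flags with chains of modules, and the flats

`W 0 ≥ W 1 ≥ .. ≥ W (r + 1) = 0` vector subspaces, `E l : ℤ → modules` between `W (l + 1)` and `W l`, increasing, periodic;
`L` a lattice. The flat at `t` is the sum of the modules `E l (t l) ∩ π ^ (- e l) L`; it does not depend on `e` if the gaps
between the numbers `t l / s l` are large.
-/

set_option autoImplicit false

namespace Pool.Agent.H76.FL

open Pool.Agent.H54.TT Pool.Agent.H98.RH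

variable {K : Type} [Field K] {v : K → ℤ} (hv : IsDV v) {n : ℕ}

/-- a periodic chain of modules between `W'` and `W`, near the lattice `L` -/
structure Chn (π : Kˣ) (L : Submodule (Ov hv) (Fin n → K)) (W W' : Submodule K (Fin n → K))
    (E : ℤ → Submodule (Ov hv) (Fin n → K)) (s D0 : ℕ) : Prop where
  pos : 0 < s
  le : ∀ i, E i ≤ vs hv W
  ge : ∀ i, vs hv W' ≤ E i
  mono : StrictMono E
  per : ∀ i, E (i + s) = bl hv π (E i) 1
  hi : E 0 ≤ (L ⊓ vs hv W) ⊔ vs hv W'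
  lo : bl hv π (L ⊓ vs hv W) (-D0) ≤ E 0

variable {hv}

theorem Chn.per_mul {π : Kˣ} {L : Submodule (Ov hv) (Fin n → K)} {W W' : Submodule K (Fin n → K)}
    {E : ℤ → Submodule (Ov hv) (Fin n → K)} {s D0 : ℕ} (h : Chn hv π L W W' E s D0) (m : ℤ) (i : ℤ) :
    E (i + s * m) = bl hv π (E i) m := by
  induction m using Int.induction_on with
  | zero => rw [mul_zero, add_zero, bl_zero]
  | succ k ih =>
    have e : i + (s : ℤ) * ((k : ℤ) + 1) = (i + s * k) + s := by ring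
    rw [e, h.per, ih, bl_bl]
  | pred k ih =>
    have e : i + (s : ℤ) * (-(k : ℤ)) = (i + s * (-(k : ℤ) - 1)) + s := by ring
    rw [e, h.per] at ih
    have h1 := congrArg (fun Λ => bl hv π Λ (-1)) ih
    simp only [bl_bl] at h1
    rw [show (1 : ℤ) + -1 = 0 by norm_num, bl_zero] at h1
    rw [h1]
    rfl

theorem Chn.lo' {π : Kˣ} {L : Submodule (Ov hv) (Fin n → K)} {W W' : Submodule K (Fin n → K)}
    {E : ℤ → Submodule (Ov hv) (Fin n → K)} {s D0 : ℕ} (h : Chn hv π L W W' E s D0) (i : ℤ) :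
    bl hv π (L ⊓ vs hv W) (i / s - D0) ≤ E i := by
  have h1 := bl_mono_left hv π h.lo (i / s)
  rw [bl_bl, ← h.per_mul, zero_add] at h1
  have e : -(D0 : ℤ) + i / s = i / s - D0 := by ring
  rw [e] at h1
  refine h1.trans (h.mono.monotone ?_)
  have hs : (s : ℤ) ≠ 0 := by exact_mod_cast h.pos.ne'
  exact _root_.Int.mul_ediv_self_le hs

theorem Chn.hi' {π : Kˣ} {L : Submodule (Ov hv) (Fin n → K)} {W W' : Submodule K (Fin n → K)}
    {E : ℤ → Submodule (Ov hv) (Fin n → K)} {s D0 : ℕ} (h : Chn hv π L W W' E s D0) (i : ℤ) :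
    E i ≤ bl hv π (L ⊓ vs hv W) (i / s + 1) ⊔ vs hv W' := by
  have h1 := bl_mono_left hv π h.hi (i / s + 1)
  rw [← h.per_mul, zero_add, bl_sup, bl_vs] at h1
  refine le_trans (h.mono.monotone ?_) h1
  have hs : (0 : ℤ) < (s : ℤ) := by exact_mod_cast h.pos
  have h2 : i < (s : ℤ) * (i / s) + s := _root_.Int.lt_mul_ediv_self_add hs
  have e : (s : ℤ) * (i / s + 1) = s * (i / s) + s := by ring
  rw [e]
  exact h2.le

variable (hv)

/-- a flag with chains -/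
structure FlC (π : Kˣ) (L : Submodule (Ov hv) (Fin n → K)) (r : ℕ) (W : ℕ → Submodule K (Fin n → K))
    (E : ℕ → ℤ → Submodule (Ov hv) (Fin n → K)) (s : ℕ → ℕ) (D0 : ℕ) : Prop where
  chn : ∀ l, l ≤ r → Chn hv π L (W l) (W (l + 1)) (E l) (s l) D0
  bot : W (r + 1) = ⊥
  top : W 0 = ⊤

/-- the flat -/
def flat (π : Kˣ) (L : Submodule (Ov hv) (Fin n → K)) {r : ℕ} (E : ℕ → ℤ → Submodule (Ov hv) (Fin n → K))
    (e t : Fin (r + 1) → ℤ) : Submodule (Ov hv) (Fin n → K) :=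
  ⨆ l : Fin (r + 1), E l (t l) ⊓ bl hv π L (e l)

/-- the gaps between the numbers `t l / s l` are at least `D` -/
def Gap {r : ℕ} (s : ℕ → ℕ) (D : ℤ) (t : Fin (r + 1) → ℤ) : Prop :=
  ∀ l l' : Fin (r + 1), (l : ℕ) + 1 = l' → t l / s l + D ≤ t l' / s l'

/-- the exponents `e l` are between `t l / s l + 1` and `t l / s l + D` -/
def Exq {r : ℕ} (s : ℕ → ℕ) (D : ℤ) (t e : Fin (r + 1) → ℤ) : Prop :=
  ∀ l : Fin (r + 1), t l / s l + 1 ≤ e l ∧ e l ≤ t l / s l + D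

variable {hv}

theorem flat_le {π : Kˣ} (hπ : v π = 1) {L : Submodule (Ov hv) (Fin n → K)} {r : ℕ} {W : ℕ → Submodule K (Fin n → K)}
    {E : ℕ → ℤ → Submodule (Ov hv) (Fin n → K)} {s : ℕ → ℕ} {D0 : ℕ} (h : FlC hv π L r W E s D0) {D : ℕ}
    {t e e' : Fin (r + 1) → ℤ} (ht : Gap s (D + D0 : ℤ) t) (he : Exq s D t e) (he' : Exq s D t e') :
    flat hv π L E e' t ≤ flat hv π L E e t := by
  refine iSup_le fun l => ?_
  rintro x ⟨hx1, hx2⟩
  have hc := h.chn l (Nat.lt_succ_iff.1 l.2)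
  obtain ⟨y, hy, w, hw, rfl⟩ := Submodule.mem_sup.1 (hc.hi' (t l) hx1)
  have hy1 : y ∈ bl hv π L (t l / s l + 1) := bl_mono_left hv π inf_le_left _ hy
  have hwE : w ∈ E l (t l) := hc.ge _ hw
  have hyE : y ∈ E l (t l) := by
    have := Submodule.sub_mem _ hx1 hwE
    rwa [add_sub_cancel_right] at this
  refine Submodule.add_mem _ ?_ ?_
  · exact Submodule.mem_iSup_of_mem l ⟨hyE, bl_mono hv hπ L (he l).1 hy1⟩
  · have hw1 : w ∈ bl hv π L (t l / s l + D) := by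
      have h1 : y + w ∈ bl hv π L (t l / s l + D) := bl_mono hv hπ L (he' l).2 hx2
      have h2 : y ∈ bl hv π L (t l / s l + D) := bl_mono hv hπ L ((he l).1.trans (he l).2) hy1
      have := Submodule.sub_mem _ h1 h2
      rwa [add_sub_cancel_left] at this
    by_cases hl : (l : ℕ) < r
    · have hlr : (l : ℕ) + 1 < r + 1 := Nat.succ_lt_succ hl
      obtain ⟨l', hl'⟩ : ∃ l' : Fin (r + 1), l' = ⟨(l : ℕ) + 1, hlr⟩ := ⟨_, rfl⟩
      have hval : (l' : ℕ) = (l : ℕ) + 1 := by rw [hl']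
      have hc' := h.chn l' (Nat.lt_succ_iff.1 l'.2)
      have hg := ht l l' hval.symm
      refine Submodule.mem_iSup_of_mem l' ⟨?_, ?_⟩
      · refine hc'.lo' (t l') ?_
        refine bl_mono hv hπ _ (show t l / s l + D ≤ t l' / s l' - D0 by linarith) ?_
        rw [bl_inf, bl_vs]
        refine ⟨hw1, ?_⟩
        rw [hval]
        exact hw
      · refine bl_mono hv hπ L ?_ hw1
        have := (he l').1
        have hD0 : (0 : ℤ) ≤ D0 := Int.natCast_nonneg _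
        linarith
    · have hlr : (l : ℕ) = r := by
        have := l.2
        omega
      have hw0 : w = 0 := by
        have h1 : w ∈ W ((l : ℕ) + 1) := hw
        rw [hlr, h.bot] at h1
        exact h1
      rw [hw0]
      exact Submodule.zero_mem _

theorem flat_eq {π : Kˣ} (hπ : v π = 1) {L : Submodule (Ov hv) (Fin n → K)} {r : ℕ} {W : ℕ → Submodule K (Fin n → K)}
    {E : ℕ → ℤ → Submodule (Ov hv) (Fin n → K)} {s : ℕ → ℕ} {D0 : ℕ} (h : FlC hv π L r W E s D0) {D : ℕ}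
    {t e e' : Fin (r + 1) → ℤ} (ht : Gap s (D + D0 : ℤ) t) (he : Exq s D t e) (he' : Exq s D t e') :
    flat hv π L E e' t = flat hv π L E e t :=
  le_antisymm (flat_le hπ h ht he he') (flat_le hπ h ht he' he)

/-- `π ^ (- m) L` is contained in the flat for `m = t 0 / s 0 - D0` -/
theorem ball_le_flat {π : Kˣ} (hπ : v π = 1) {L : Submodule (Ov hv) (Fin n → K)} {r : ℕ} {W : ℕ → Submodule K (Fin n → K)}
    {E : ℕ → ℤ → Submodule (Ov hv) (Fin n → K)} {s : ℕ → ℕ} {D0 : ℕ} (h : FlC hv π L r W E s D0) {D : ℕ}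
    {t e : Fin (r + 1) → ℤ} (he : Exq s D t e) : bl hv π L (t 0 / s 0 - D0) ≤ flat hv π L E e t := by
  intro x hx
  have hc := h.chn 0 (Nat.zero_le r)
  refine Submodule.mem_iSup_of_mem 0 ⟨?_, ?_⟩
  · refine hc.lo' (t 0) ?_
    rw [bl_inf, bl_vs, h.top]
    exact ⟨hx, Submodule.mem_top⟩
  · refine bl_mono hv hπ L ?_ hx
    have := (he 0).1
    have hD0 : (0 : ℤ) ≤ D0 := Int.natCast_nonneg _
    simp only [Fin.coe_ofNat_eq_mod, Nat.zero_mod] at this
    linarith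

theorem gap_mono {r : ℕ} {s : ℕ → ℕ} {D : ℤ} (hD : 0 ≤ D) {t : Fin (r + 1) → ℤ} (ht : Gap s D t) :
    ∀ l l' : Fin (r + 1), l ≤ l' → t l / s l ≤ t l' / s l' := by
  intro l l' hll
  obtain ⟨k, hk⟩ : ∃ k : ℕ, (l' : ℕ) = l + k := ⟨l' - l, by have : (l : ℕ) ≤ l' := hll; omega⟩
  induction k generalizing l' with
  | zero =>
    have : l' = l := Fin.ext (by omega)
    rw [this]
  | succ k ih =>
    have hlt : (l : ℕ) + k < r + 1 := by
      have := l'.2
      omega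
    have h1 := ih ⟨(l : ℕ) + k, hlt⟩ (by show (l : ℕ) ≤ l + k; omega) rfl
    have h2 := ht ⟨(l : ℕ) + k, hlt⟩ l' (by show (l : ℕ) + k + 1 = l'; omega)
    linarith

theorem flat_le_ball {π : Kˣ} (hπ : v π = 1) {L : Submodule (Ov hv) (Fin n → K)} {r : ℕ}
    {E : ℕ → ℤ → Submodule (Ov hv) (Fin n → K)} {s : ℕ → ℕ} {D D' : ℕ}
    {t e : Fin (r + 1) → ℤ} (ht : Gap s D' t) (he : Exq s D t e) :
    flat hv π L E e t ≤ bl hv π L (t (Fin.last r) / s r + D) := by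
  refine iSup_le fun l => inf_le_right.trans (bl_mono hv hπ L ?_)
  have h1 := gap_mono (Int.natCast_nonneg D') ht l (Fin.last r) (Fin.le_last l)
  have h2 := (he l).2
  rw [Fin.val_last] at h1
  linarith

/-- the module `u Λ` -/
def um (u : (Fin n → K) ≃ₗ[K] (Fin n → K)) (Λ : Submodule (Ov hv) (Fin n → K)) : Submodule (Ov hv) (Fin n → K) :=
  Λ.map (u.toLinearMap.restrictScalars (Ov hv))

theorem mem_um {u : (Fin n → K) ≃ₗ[K] (Fin n → K)} {Λ : Submodule (Ov hv) (Fin n → K)} {x : Fin n → K} :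
    x ∈ um u Λ ↔ u.symm x ∈ Λ := by
  unfold um
  rw [Submodule.mem_map]
  constructor
  · rintro ⟨y, hy, rfl⟩
    show u.symm (u y) ∈ Λ
    rw [u.symm_apply_apply]
    exact hy
  · intro h
    exact ⟨_, h, u.apply_symm_apply x⟩

theorem um_inf (u : (Fin n → K) ≃ₗ[K] (Fin n → K)) (Λ Λ' : Submodule (Ov hv) (Fin n → K)) :
    um u (Λ ⊓ Λ') = um u Λ ⊓ um u Λ' := by
  ext x
  rw [mem_um]
  constructor
  · rintro ⟨h1, h2⟩
    exact ⟨mem_um.2 h1, mem_um.2 h2⟩
  · rintro ⟨h1, h2⟩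
    exact ⟨mem_um.1 h1, mem_um.1 h2⟩

theorem um_iSup {ι : Type} (u : (Fin n → K) ≃ₗ[K] (Fin n → K)) (Λ : ι → Submodule (Ov hv) (Fin n → K)) :
    um u (⨆ i, Λ i) = ⨆ i, um u (Λ i) := by
  unfold um
  rw [Submodule.map_iSup]

theorem um_mono (u : (Fin n → K) ≃ₗ[K] (Fin n → K)) {Λ Λ' : Submodule (Ov hv) (Fin n → K)} (h : Λ ≤ Λ') :
    um u Λ ≤ um u Λ' := Submodule.map_mono h

/-- `u` and its inverse are congruent to the identity modulo `π ^ D` -/
structure Cg (π : Kˣ) (L : Submodule (Ov hv) (Fin n → K)) (D : ℤ) (u : (Fin n → K) ≃ₗ[K] (Fin n → K)) : Prop where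
  fwd : ∀ x ∈ L, u x - x ∈ bl hv π L (-D)
  bwd : ∀ x ∈ L, u.symm x - x ∈ bl hv π L (-D)

theorem Cg.fwd' {π : Kˣ} {L : Submodule (Ov hv) (Fin n → K)} {D : ℤ} {u : (Fin n → K) ≃ₗ[K] (Fin n → K)}
    (h : Cg π L D u) {m : ℤ} {x : Fin n → K} (hx : x ∈ bl hv π L m) : u x - x ∈ bl hv π L (m - D) := by
  have h1 : (((π ^ (-m))⁻¹ : Kˣ) : K) • x ∈ L := hx
  have h2 := h.fwd _ h1
  rw [map_smul, ← smul_sub] at h2
  have h3 : u x - x ∈ bl hv π (bl hv π L (-D)) m := h2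
  rw [bl_bl] at h3
  have e : -D + m = m - D := by ring
  rwa [e] at h3

theorem Cg.symm {π : Kˣ} {L : Submodule (Ov hv) (Fin n → K)} {D : ℤ} {u : (Fin n → K) ≃ₗ[K] (Fin n → K)}
    (h : Cg π L D u) : Cg π L D u.symm := ⟨h.bwd, h.fwd⟩

theorem Cg.ball_le {π : Kˣ} (hπ : v π = 1) {L : Submodule (Ov hv) (Fin n → K)} {D : ℤ} (hD : 0 ≤ D)
    {u : (Fin n → K) ≃ₗ[K] (Fin n → K)} (h : Cg π L D u) (m : ℤ) : um u (bl hv π L m) ≤ bl hv π L m := by
  intro x hx
  rw [mem_um] at hx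
  have h1 := h.fwd' hx
  rw [u.apply_symm_apply] at h1
  have h2 := bl_mono hv hπ L (show m - D ≤ m by linarith) h1
  have h3 := Submodule.add_mem _ h2 hx
  rwa [sub_add_cancel] at h3

theorem um_symm (u : (Fin n → K) ≃ₗ[K] (Fin n → K)) (Λ : Submodule (Ov hv) (Fin n → K)) : um u (um u.symm Λ) = Λ := by
  ext x
  rw [mem_um, mem_um, LinearEquiv.symm_symm, u.apply_symm_apply]

theorem Cg.ball_eq {π : Kˣ} (hπ : v π = 1) {L : Submodule (Ov hv) (Fin n → K)} {D : ℤ} (hD : 0 ≤ D)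
    {u : (Fin n → K) ≃ₗ[K] (Fin n → K)} (h : Cg π L D u) (m : ℤ) : um u (bl hv π L m) = bl hv π L m := by
  refine le_antisymm (h.ball_le hπ hD m) ?_
  have h1 := um_mono u (h.symm.ball_le hπ hD m)
  rwa [um_symm] at h1

/-- the flats are invariant under the elements congruent to the identity -/
theorem um_flat {π : Kˣ} (hπ : v π = 1) {L : Submodule (Ov hv) (Fin n → K)} {r : ℕ} {W : ℕ → Submodule K (Fin n → K)}
    {E : ℕ → ℤ → Submodule (Ov hv) (Fin n → K)} {s : ℕ → ℕ} {D0 : ℕ} (h : FlC hv π L r W E s D0) {D D' : ℕ}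
    {t e : Fin (r + 1) → ℤ} (ht : Gap s D' t) (he : Exq s D t e) {Du : ℤ} {u : (Fin n → K) ≃ₗ[K] (Fin n → K)}
    (hu : Cg π L Du u) (hD : t (Fin.last r) / s r + D - Du ≤ t 0 / s 0 - D0) :
    um u (flat hv π L E e t) = flat hv π L E e t := by
  have key : ∀ u : (Fin n → K) ≃ₗ[K] (Fin n → K), Cg π L Du u → um u (flat hv π L E e t) ≤ flat hv π L E e t := by
    intro u hu x hx
    rw [mem_um] at hx
    have h1 := hu.fwd' (flat_le_ball hπ ht he hx)
    rw [u.apply_symm_apply] at h1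
    have h2 := ball_le_flat hπ h he (bl_mono hv hπ L hD h1)
    have h3 := Submodule.add_mem _ h2 hx
    rwa [sub_add_cancel] at h3
  refine le_antisymm (key u hu) ?_
  have h1 := um_mono u (key u.symm hu.symm)
  rwa [um_symm] at h1

/-- The flats of the transported chains. -/
theorem flat_shift {π : Kˣ} (hπ : v π = 1) {L L' : Submodule (Ov hv) (Fin n → K)} {r : ℕ} {W : ℕ → Submodule K (Fin n → K)}
    {E E' : ℕ → ℤ → Submodule (Ov hv) (Fin n → K)} {s : ℕ → ℕ} {D0 : ℕ} (h : FlC hv π L r W E s D0) {D R : ℕ}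
    (hL : bl hv π L (-R) ≤ L') (hL' : L' ≤ bl hv π L R) {Du : ℤ} (hDu : 0 ≤ Du) {u : (Fin n → K) ≃ₗ[K] (Fin n → K)}
    (hu : Cg π L Du u) {δ : Fin (r + 1) → ℤ} (hE : ∀ (l : Fin (r + 1)) i, E' l i = um u (E l (i + δ l)))
    {t e e' : Fin (r + 1) → ℤ} (ht : Gap s (D + D0 : ℤ) (t + δ)) (he : Exq s D (t + δ) e)
    (he' : Exq s D (t + δ) (fun l => e' l - R)) (he'' : Exq s D (t + δ) (fun l => e' l + R))
    (hD : (t + δ) (Fin.last r) / s r + D - Du ≤ (t + δ) 0 / s 0 - D0) :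
    flat hv π L' E' e' t = flat hv π L E e (t + δ) := by
  have hb : ∀ m : ℤ, um u (bl hv π L m) = bl hv π L m := fun m => hu.ball_eq hπ hDu m
  have ht' : Gap s ((D + D0 : ℕ) : ℤ) (t + δ) := by
    intro l l' hl
    have := ht l l' hl
    push_cast
    exact this
  have hflat : ∀ e1 : Fin (r + 1) → ℤ, (⨆ l : Fin (r + 1), E' l (t l) ⊓ bl hv π L (e1 l)) =
      um u (flat hv π L E e1 (t + δ)) := by
    intro e1
    unfold flat
    rw [um_iSup]
    refine iSup_congr fun l => ?_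
    rw [um_inf, hb, hE]
    rfl
  have h1 : flat hv π L' E' e' t ≤ ⨆ l : Fin (r + 1), E' l (t l) ⊓ bl hv π L (e' l + R) := by
    refine iSup_mono fun l => inf_le_inf le_rfl ?_
    have := bl_mono_left hv π hL' (e' l)
    rw [bl_bl, add_comm] at this
    exact this
  have h2 : (⨆ l : Fin (r + 1), E' l (t l) ⊓ bl hv π L (e' l - R)) ≤ flat hv π L' E' e' t := by
    refine iSup_mono fun l => inf_le_inf le_rfl ?_
    have := bl_mono_left hv π hL (e' l)
    rw [bl_bl] at this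
    have e3 : -(R : ℤ) + e' l = e' l - R := by ring
    rwa [e3] at this
  rw [hflat (fun l => e' l + R), um_flat hπ h ht' he'' hu hD, flat_eq hπ h ht he he''] at h1
  rw [hflat (fun l => e' l - R), um_flat hπ h ht' he' hu hD, flat_eq hπ h ht he he'] at h2
  exact le_antisymm h1 h2

end Pool.Agent.H76.FL
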