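import Pool.Agent.H76.FL.Term

/-!
# H76 FL, Hul: approximations of hulls in subspaces by lattice terms

`W`, `W1` modules (vector subspaces in the application), `L` a lattice, `Λ a`, `a ∈ s`, lattices between `π ^ N L` and
`π ^ (- y) L`, the hull is `H = ⨆ W ⊓ Λ a`.
-/

set_option autoImplicit false

namespace Pool.Agent.H76.FL

open Pool.Agent.H54.TT Pool.Agent.H25.DI
open Pool.Agent.H98.RH hiding LT

section

variable {K : Type} [Field K] {v : K → ℤ} {hv : IsDV v} {n : ℕ}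

/-- the approximation of `W` by a lattice -/
def apx (hv : IsDV v) (π : Kˣ) (L W : Submodule (Ov hv) (Fin n → K)) (y N : ℤ) : Submodule (Ov hv) (Fin n → K) :=
  (W ⊓ bl hv π L y) ⊔ bl hv π L (-N)

/-- vector subspaces -/
def IsSb (W : Submodule (Ov hv) (Fin n → K)) : Prop := ∀ (c : Kˣ), sc hv c W = W

theorem apx_eq_bl {π : Kˣ} {L W : Submodule (Ov hv) (Fin n → K)} (hW : IsSb W) (y N : ℤ) :
    apx hv π L W y N = bl hv π (apx hv π L W 0 (N + y)) y := by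
  unfold apx
  rw [bl_zero, bl_sup, bl_inf, bl_bl]
  have e1 : bl hv π W y = W := hW _
  rw [e1]
  congr 2
  ring

/-- the modular law -/
theorem apx_inf {π : Kˣ} {L W Λ : Submodule (Ov hv) (Fin n → K)} {y N : ℤ} (h1 : bl hv π L (-N) ≤ Λ)
    (h2 : Λ ≤ bl hv π L y) : apx hv π L W y N ⊓ Λ = (W ⊓ Λ) ⊔ bl hv π L (-N) := by
  unfold apx
  apply le_antisymm
  · rintro x ⟨hx1, hx2⟩
    obtain ⟨w, hw, z, hz, rfl⟩ := Submodule.mem_sup.1 hx1
    refine Submodule.add_mem _ (Submodule.mem_sup_left ⟨hw.1, ?_⟩) (Submodule.mem_sup_right hz)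
    have := Submodule.sub_mem _ hx2 (h1 hz)
    rwa [add_sub_cancel_right] at this
  · refine sup_le ?_ ?_
    · rintro x ⟨hx1, hx2⟩
      exact ⟨Submodule.mem_sup_left ⟨hx1, h2 hx2⟩, hx2⟩
    · intro x hx
      exact ⟨Submodule.mem_sup_right hx, h1 hx⟩

theorem iSup_apx {π : Kˣ} {L W : Submodule (Ov hv) (Fin n → K)} {y N : ℤ} {ι : Type} (s : Finset ι) (hs : s.Nonempty)
    {Λ : ι → Submodule (Ov hv) (Fin n → K)} (h1 : ∀ a ∈ s, bl hv π L (-N) ≤ Λ a) (h2 : ∀ a ∈ s, Λ a ≤ bl hv π L y) :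
    (⨆ a ∈ s, apx hv π L W y N ⊓ Λ a) = (⨆ a ∈ s, W ⊓ Λ a) ⊔ bl hv π L (-N) := by
  obtain ⟨a0, ha0⟩ := hs
  apply le_antisymm
  · refine iSup₂_le fun a ha => ?_
    rw [apx_inf (h1 a ha) (h2 a ha)]
    exact sup_le_sup (le_iSup₂_of_le a ha le_rfl) le_rfl
  · refine sup_le (iSup₂_mono fun a ha => ?_) ?_
    · rw [apx_inf (h1 a ha) (h2 a ha)]
      exact le_sup_left
    · refine le_iSup₂_of_le a0 ha0 ?_
      rw [apx_inf (h1 a0 ha0) (h2 a0 ha0)]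
      exact le_sup_right

variable {π : Kˣ} {H : Type} {ρ : H → GL (Fin n) K} {P : Set H}

/-- the deep part -/
theorem cl_deep (hπ : v π = 1) {L W W1 : Submodule (Ov hv) (Fin n → K)} (hW : IsSb W) {y N N' : ℤ} (hN' : 0 ≤ N')
    (hNN : N' ≤ N) {ι : Type} (s : Finset ι) (hs : s.Nonempty) {Λ : ι → Submodule (Ov hv) (Fin n → K)}
    (h1 : ∀ a ∈ s, bl hv π L (-N) ≤ Λ a) (h2 : ∀ a ∈ s, Λ a ≤ bl hv π L y) (t1 : W1 ⊓ L ≤ ⨆ a ∈ s, W ⊓ Λ a)
    (t2 : L ⊓ (⨆ a ∈ s, W ⊓ Λ a) ≤ W1 ⊔ bl hv π L (-N')) {C C' J : ℕ} (hL : Cl hv π ρ P 0 0 L)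
    (hΛ : ∀ a ∈ s, Cl hv π ρ P C' 0 (Λ a)) (hA : Cl hv π ρ P C J (apx hv π L W 0 (N + y))) (hC : (C : ℤ) + |y| ≤ C')
    (hN'C : N' ≤ C') : Cl hv π ρ P C' (J + (n + 4)) (apx hv π L W1 0 N') := by
  have hA' : Cl hv π ρ P C' J (apx hv π L W y N) := by
    rw [apx_eq_bl hW]
    exact hA.bl y hC
  have h3 : Cl hv π ρ P C' (J + 1 + (n + 1)) (⨆ a ∈ s, apx hv π L W y N ⊓ Λ a) :=
    Cl.finsup' hπ s hs fun a ha => hA'.inf ((hΛ a ha).mono le_rfl (Nat.zero_le J))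
  rw [iSup_apx s hs h1 h2] at h3
  have h4 : Cl hv π ρ P C' (J + 1 + (n + 1) + 1) (((⨆ a ∈ s, W ⊓ Λ a) ⊔ bl hv π L (-N)) ⊓ L) :=
    h3.inf (hL.mono (Nat.zero_le _) (Nat.zero_le _))
  have h5 : Cl hv π ρ P C' (J + 1 + (n + 1) + 1) (bl hv π L (-N')) :=
    (hL.bl (-N') (by rw [abs_neg, abs_of_nonneg hN', Nat.cast_zero, zero_add]; exact hN'C)).mono le_rfl (Nat.zero_le _)
  have h6 := h4.sup h5
  have e : (((⨆ a ∈ s, W ⊓ Λ a) ⊔ bl hv π L (-N)) ⊓ L) ⊔ bl hv π L (-N') = apx hv π L W1 0 N' := by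
    unfold apx
    rw [bl_zero]
    have hb : bl hv π L (-N) ≤ bl hv π L (-N') := bl_mono hv hπ L (by omega)
    have hb' : bl hv π L (-N') ≤ L := by
      have := bl_mono hv hπ L (show -N' ≤ 0 by omega)
      rwa [bl_zero] at this
    apply le_antisymm
    · refine sup_le ?_ le_sup_right
      rintro x ⟨hx1, hx2⟩
      obtain ⟨h, hh, z, hz, rfl⟩ := Submodule.mem_sup.1 hx1
      have hhL : h ∈ L := by
        have := Submodule.sub_mem _ hx2 (hb' (hb hz))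
        rwa [add_sub_cancel_right] at this
      obtain ⟨w, hw, z', hz', e'⟩ := Submodule.mem_sup.1 (t2 ⟨hhL, hh⟩)
      rw [← e', add_assoc]
      refine Submodule.add_mem _ (Submodule.mem_sup_left ⟨hw, ?_⟩) (Submodule.mem_sup_right (Submodule.add_mem _ hz' (hb hz)))
      have h7 : w = h - z' := by rw [← e', add_sub_cancel_right]
      rw [h7]
      exact Submodule.sub_mem _ hhL (hb' hz')
    · refine sup_le ?_ le_sup_right
      rintro x ⟨hx1, hx2⟩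
      exact Submodule.mem_sup_left ⟨Submodule.mem_sup_left (t1 ⟨hx1, hx2⟩), hx2⟩
  rw [e] at h6
  exact h6.mono le_rfl (by omega)

/-- a member of a chain, intersected with a ball -/
theorem cl_shape (hπ : v π = 1) {L W W1 : Submodule (Ov hv) (Fin n → K)} (hW : IsSb W) (hW1 : IsSb W1) {y N Nf e : ℤ}
    (hNf : Nf ≤ N) (hye : e ≤ y) (hNe : -Nf ≤ e) {ι : Type} (s : Finset ι) (hs : s.Nonempty)
    {Λ : ι → Submodule (Ov hv) (Fin n → K)}
    (h1 : ∀ a ∈ s, bl hv π L (-N) ≤ Λ a) (h2 : ∀ a ∈ s, Λ a ≤ bl hv π L y) {C C' J : ℕ} (hL : Cl hv π ρ P 0 0 L)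
    (hΛ : ∀ a ∈ s, Cl hv π ρ P C' 0 (Λ a)) (hA : Cl hv π ρ P C J (apx hv π L W 0 (N + y)))
    (hA1 : Cl hv π ρ P C J (apx hv π L W1 0 (N + y))) (hC : (C : ℤ) + |y| ≤ C') (he : |e| ≤ C') (hNfC : |Nf| ≤ C') :
    Cl hv π ρ P C' (J + (n + 5)) ((((⨆ a ∈ s, W ⊓ Λ a) ⊔ W1) ⊓ bl hv π L e) ⊔ bl hv π L (-Nf)) := by
  have hA' : Cl hv π ρ P C' J (apx hv π L W y N) := by
    rw [apx_eq_bl hW]
    exact hA.bl y hC
  have hA1' : Cl hv π ρ P C' J (apx hv π L W1 y N) := by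
    rw [apx_eq_bl hW1]
    exact hA1.bl y hC
  have h3 : Cl hv π ρ P C' (J + 1 + (n + 1)) (⨆ a ∈ s, apx hv π L W y N ⊓ Λ a) :=
    Cl.finsup' hπ s hs fun a ha => hA'.inf ((hΛ a ha).mono le_rfl (Nat.zero_le J))
  rw [iSup_apx s hs h1 h2] at h3
  have h4 : Cl hv π ρ P C' (J + 1 + (n + 1) + 1) (((⨆ a ∈ s, W ⊓ Λ a) ⊔ bl hv π L (-N)) ⊔ apx hv π L W1 y N) :=
    h3.sup (hA1'.mono le_rfl (by omega))
  have h5 : Cl hv π ρ P C' (J + 1 + (n + 1) + 1) (bl hv π L e) :=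
    (hL.bl e (by rw [Nat.cast_zero, zero_add]; exact he)).mono le_rfl (Nat.zero_le _)
  have h6 : Cl hv π ρ P C' (J + 1 + (n + 1) + 1 + 1) (bl hv π L (-Nf)) :=
    (hL.bl (-Nf) (by rw [abs_neg, Nat.cast_zero, zero_add]; exact hNfC)).mono le_rfl (Nat.zero_le _)
  have h7 := (h4.inf h5).sup h6
  have e : ((((⨆ a ∈ s, W ⊓ Λ a) ⊔ bl hv π L (-N)) ⊔ apx hv π L W1 y N) ⊓ bl hv π L e) ⊔ bl hv π L (-Nf) =
      (((⨆ a ∈ s, W ⊓ Λ a) ⊔ W1) ⊓ bl hv π L e) ⊔ bl hv π L (-Nf) := by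
    have hb : bl hv π L (-N) ≤ bl hv π L (-Nf) := bl_mono hv hπ L (by omega)
    have hbe : bl hv π L (-Nf) ≤ bl hv π L e := bl_mono hv hπ L hNe
    have hey : bl hv π L e ≤ bl hv π L y := bl_mono hv hπ L hye
    apply le_antisymm
    · refine sup_le ?_ le_sup_right
      rintro x ⟨hx1, hx2⟩
      obtain ⟨a, ha, b, hb', rfl⟩ := Submodule.mem_sup.1 hx1
      obtain ⟨h, hh, z, hz, rfl⟩ := Submodule.mem_sup.1 ha
      obtain ⟨w, hw, z', hz', rfl⟩ := Submodule.mem_sup.1 hb'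
      have e1 : h + z + (w + z') = (h + w) + (z + z') := by
        rw [add_add_add_comm]
      rw [e1] at hx2 ⊢
      have hzz : z + z' ∈ bl hv π L (-Nf) := Submodule.add_mem _ (hb hz) (hb hz')
      refine Submodule.add_mem _ (Submodule.mem_sup_left ⟨?_, ?_⟩) (Submodule.mem_sup_right hzz)
      · exact Submodule.add_mem _ (Submodule.mem_sup_left hh) (Submodule.mem_sup_right hw.1)
      · have := Submodule.sub_mem _ hx2 (hbe hzz)
        rwa [add_sub_cancel_right] at this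
    · refine sup_le ?_ le_sup_right
      rintro x ⟨hx1, hx2⟩
      obtain ⟨h, hh, w, hw, rfl⟩ := Submodule.mem_sup.1 hx1
      refine Submodule.mem_sup_left ⟨?_, hx2⟩
      refine Submodule.add_mem _ (Submodule.mem_sup_left (Submodule.mem_sup_left hh)) (Submodule.mem_sup_right ?_)
      unfold apx
      refine Submodule.mem_sup_left ⟨hw, ?_⟩
      have hhy : h ∈ bl hv π L y := by
        have h8 : (⨆ a ∈ s, W ⊓ Λ a) ≤ bl hv π L y := iSup₂_le fun a ha => inf_le_right.trans (h2 a ha)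
        exact h8 hh
      have := Submodule.sub_mem _ (hey hx2) hhy
      rwa [add_sub_cancel_left] at this
  rw [e] at h7
  exact h7.mono le_rfl (by omega)

end

end Pool.Agent.H76.FL
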