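import Pool.Agent.H76.FL.Flat

/-!
# H76 FL, Inj: the flats determine the indices
-/

set_option autoImplicit false

namespace Pool.Agent.H76.FL

open Pool.Agent.H54.TT Pool.Agent.H98.RH

variable {K : Type} [Field K] {v : K → ℤ} {hv : IsDV v} {n : ℕ}

private theorem w_anti {π : Kˣ} {L : Submodule (Ov hv) (Fin n → K)} {r : ℕ} {W : ℕ → Submodule K (Fin n → K)}
    {E : ℕ → ℤ → Submodule (Ov hv) (Fin n → K)} {s : ℕ → ℕ} {D0 : ℕ} (h : FlC hv π L r W E s D0) (l : ℕ) (hl : l ≤ r)
    (k : ℕ) (hk : l + k ≤ r + 1) : W (l + k) ≤ W l := by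
  induction k with
  | zero => exact le_rfl
  | succ k ih =>
    have h1 := h.chn (l + k) (by omega)
    intro x hx
    refine ih (by omega) ?_
    exact h1.le 0 (h1.ge 0 hx)

/-- the partial sums of the first `l` members which are in `W l` are in the chain `E l` -/
private theorem part_mem {π : Kˣ} (hπ : v π = 1) {L : Submodule (Ov hv) (Fin n → K)} {r : ℕ}
    {W : ℕ → Submodule K (Fin n → K)} {E : ℕ → ℤ → Submodule (Ov hv) (Fin n → K)} {s : ℕ → ℕ} {D0 : ℕ}
    (h : FlC hv π L r W E s D0) {D : ℕ} {t e : Fin (r + 1) → ℤ} (ht : Gap s (D + D0 : ℤ) t) (he : Exq s D t e)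
    (l : Fin (r + 1)) (x : Fin (r + 1) → Fin n → K) (hx : ∀ j : Fin (r + 1), x j ∈ E j (t j) ⊓ bl hv π L (e j))
    (hs : ∑ j ∈ Finset.univ.filter (fun j => j < l), x j ∈ W l) :
    ∑ j ∈ Finset.univ.filter (fun j => j < l), x j ∈ E l (t l) := by
  rcases Nat.eq_zero_or_pos (l : ℕ) with hl | hl
  · have : Finset.univ.filter (fun j : Fin (r + 1) => j < l) = ∅ := by
      rw [Finset.filter_eq_empty_iff]
      intro j _ hj
      have : (j : ℕ) < l := hj
      omega
    rw [this, Finset.sum_empty]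
    exact Submodule.zero_mem _
  · have hc := h.chn l (Nat.lt_succ_iff.1 l.2)
    obtain ⟨l0, hl0⟩ : ∃ l0 : Fin (r + 1), (l0 : ℕ) + 1 = l := ⟨⟨(l : ℕ) - 1, by have := l.2; omega⟩, by
      show (l : ℕ) - 1 + 1 = l
      omega⟩
    have hg := ht l0 l hl0
    have hD : (0 : ℤ) ≤ (D : ℤ) + D0 := by positivity
    refine hc.lo' (t l) ?_
    refine bl_mono hv hπ _ (show t l0 / s l0 + D ≤ t l / s l - D0 by linarith) ?_
    rw [bl_inf, bl_vs]
    refine ⟨Submodule.sum_mem _ fun j hj => ?_, hs⟩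
    have hjl : j ≤ l0 := by
      have h1 : j < l := (Finset.mem_filter.1 hj).2
      have h2 : (j : ℕ) < l := h1
      show (j : ℕ) ≤ l0
      omega
    refine bl_mono hv hπ L ?_ (hx j).2
    have h1 := gap_mono hD ht j l0 hjl
    have h2 := (he j).2
    linarith

/-- Proof. An element of the flat in `W l` is a sum of `x j ∈ E j (t j)`; the terms with `j > l` are in `W (l + 1)`, the sum
of the terms with `j < l` is in `W l` and small. -/
theorem flat_inf {π : Kˣ} (hπ : v π = 1) {L : Submodule (Ov hv) (Fin n → K)} {r : ℕ} {W : ℕ → Submodule K (Fin n → K)}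
    {E : ℕ → ℤ → Submodule (Ov hv) (Fin n → K)} {s : ℕ → ℕ} {D0 : ℕ} (h : FlC hv π L r W E s D0) {D : ℕ}
    {t e : Fin (r + 1) → ℤ} (ht : Gap s (D + D0 : ℤ) t) (he : Exq s D t e) (l : Fin (r + 1)) :
    (flat hv π L E e t ⊓ vs hv (W l)) ⊔ vs hv (W (l + 1)) = E l (t l) := by
  have hc := h.chn l (Nat.lt_succ_iff.1 l.2)
  apply le_antisymm
  · refine sup_le ?_ (hc.ge _)
    rintro y ⟨hy, hyW⟩
    obtain ⟨x, hx, rfl⟩ := (Submodule.mem_iSup_iff_exists_finsupp _ _).1 hy |>.imp fun f hf => hf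
    have hsum : (x.sum fun _ y => y) = ∑ j, x j := by
      rw [Finsupp.sum_fintype]
      intro _
      rfl
    rw [hsum] at hyW ⊢
    have hsplit : ∑ j, x j = (∑ j ∈ Finset.univ.filter (fun j => j < l), x j) + (x l +
        ∑ j ∈ Finset.univ.filter (fun j => l < j), x j) := by
      rw [← Finset.sum_filter_add_sum_filter_not Finset.univ (fun j => j < l)]
      congr 1
      have e1 : Finset.univ.filter (fun j => ¬ j < l) = insert l (Finset.univ.filter (fun j => l < j)) := by
        ext j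
        simp only [Finset.mem_filter, Finset.mem_univ, true_and, Finset.mem_insert, not_lt]
        rw [le_iff_eq_or_lt]
        constructor
        · rintro (h | h)
          · exact Or.inl h.symm
          · exact Or.inr h
        · rintro (h | h)
          · exact Or.inl h.symm
          · exact Or.inr h
      rw [e1, Finset.sum_insert]
      simp
    have hup : ∑ j ∈ Finset.univ.filter (fun j => l < j), x j ∈ W (l + 1) := by
      refine Submodule.sum_mem _ fun j hj => ?_
      have h1 : l < j := (Finset.mem_filter.1 hj).2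
      have h2 : (l : ℕ) < j := h1
      have h3 := h.chn j (Nat.lt_succ_iff.1 j.2)
      have h4 : x j ∈ W j := h3.le _ (hx j).1
      obtain ⟨k, hk⟩ : ∃ k : ℕ, (j : ℕ) = (l + 1 : ℕ) + k := ⟨j - (l + 1), by omega⟩
      have h5 := w_anti h (l + 1) (by have := j.2; omega) k (by have := j.2; omega)
      rw [← hk] at h5
      exact h5 h4
    have hWl : W ((l : ℕ) + 1) ≤ W l := fun z hz => hc.le 0 (hc.ge 0 hz)
    have hxl : x l ∈ W l := hc.le _ (hx l).1
    have hlow : ∑ j ∈ Finset.univ.filter (fun j => j < l), x j ∈ W l := by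
      have h1 : (∑ j, x j) ∈ W l := hyW
      rw [hsplit] at h1
      have h2 := (W l).add_mem hxl (hWl hup)
      have h3 := (W l).sub_mem h1 h2
      rwa [add_sub_cancel_right] at h3
    rw [hsplit]
    exact Submodule.add_mem _ (part_mem hπ h ht he l (fun j => x j) hx hlow)
      (Submodule.add_mem _ (hx l).1 (hc.ge _ hup))
  · intro y hy
    obtain ⟨a, ha, w, hw, rfl⟩ := Submodule.mem_sup.1 (hc.hi' (t l) hy)
    refine Submodule.add_mem _ (Submodule.mem_sup_left ?_) (Submodule.mem_sup_right hw)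
    have haE : a ∈ E l (t l) := by
      have := Submodule.sub_mem _ hy (hc.ge (t l) hw)
      rwa [add_sub_cancel_right] at this
    refine ⟨Submodule.mem_iSup_of_mem l ⟨haE, ?_⟩, hc.le _ haE⟩
    exact bl_mono hv hπ L (he l).1 (bl_mono_left hv π inf_le_left _ ha)

/-- the flats determine the indices -/
theorem flat_inj {π : Kˣ} (hπ : v π = 1) {L : Submodule (Ov hv) (Fin n → K)} {r : ℕ} {W : ℕ → Submodule K (Fin n → K)}
    {E : ℕ → ℤ → Submodule (Ov hv) (Fin n → K)} {s : ℕ → ℕ} {D0 : ℕ} (h : FlC hv π L r W E s D0) {D : ℕ}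
    {t t' e e' : Fin (r + 1) → ℤ} (ht : Gap s (D + D0 : ℤ) t) (he : Exq s D t e) (ht' : Gap s (D + D0 : ℤ) t')
    (he' : Exq s D t' e') (heq : flat hv π L E e t = flat hv π L E e' t') : t = t' := by
  funext l
  have h1 := flat_inf hπ h ht he l
  rw [heq, flat_inf hπ h ht' he' l] at h1
  exact ((h.chn l (Nat.lt_succ_iff.1 l.2)).mono.injective h1).symm

end Pool.Agent.H76.FL
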