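import Pool.Agent.H76.FL.Sc
import Pool.Agent.H25.DI.Lat

/-!
# H76 FL, Nak: a finite sum of lattices is a sum of at most `n + 1` of them
-/

set_option autoImplicit false

namespace Pool.Agent.H76.FL

open Pool.Agent.H54.TT Pool.Agent.H25.DI
open Pool.Agent.H98.RH hiding LT

variable {K : Type} [Field K] {v : K → ℤ} {hv : IsDV v} {n : ℕ}

/-- the valuation of the determinant -/
def vd (v : K → ℤ) (g : GL (Fin n) K) : ℤ := v g.det.val

theorem exists_sup {π : Kˣ} (hπ : v π = 1) (g g' : GL (Fin n) K) : ∃ g'' : GL (Fin n) K, LM hv g ⊔ LM hv g' = LM hv g'' := by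
  obtain ⟨U, U', d, hU, hU', h⟩ := smith hv hπ (g⁻¹ * g')
  have e : g' = g * U * dg π d * U' := by
    have h1 : g' = g * (g⁻¹ * g') := by rw [mul_inv_cancel_left]
    rw [h1, h]
    group
  exact ⟨_, (LM_two hv hπ hU hU' e).1⟩

theorem exists_inf {π : Kˣ} (hπ : v π = 1) (g g' : GL (Fin n) K) : ∃ g'' : GL (Fin n) K, LM hv g ⊓ LM hv g' = LM hv g'' := by
  obtain ⟨U, U', d, hU, hU', h⟩ := smith hv hπ (g⁻¹ * g')
  have e : g' = g * U * dg π d * U' := by
    have h1 : g' = g * (g⁻¹ * g') := by rw [mul_inv_cancel_left]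
    rw [h1, h]
    group
  exact ⟨_, (LM_two hv hπ hU hU' e).2⟩

/-- a lattice which is contained in another one of the same determinant is equal to it -/
theorem vd_lt {g g' : GL (Fin n) K} (h : LM hv g ≤ LM hv g') (hne : LM hv g ≠ LM hv g') : vd v g' + 1 ≤ vd v g := by
  have h1 := (LM_le_iff hv).1 h
  have h2 : v (g'⁻¹ * g).det.val = vd v g - vd v g' := by
    rw [Pool.Agent.H10.RA.vdet_mul hv, Pool.Agent.H10.RA.vdet_inv hv]
    unfold vd
    ring
  have h3 : 0 ≤ v (g'⁻¹ * g).det.val := by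
    have h4 := Pool.Agent.H10.RA.ge_det hv (M := (g'⁻¹ * g).val) (k := 0) h1
    rw [mul_zero] at h4
    exact h4 (g'⁻¹ * g).det.ne_zero
  rcases h3.lt_or_eq with h4 | h4
  · omega
  · exfalso
    apply hne
    have hI : Pool.Agent.H98.RH.Int v (g'⁻¹ * g) := ⟨h1, h4.symm⟩
    have h5 := LM_mul_int hv (g := g') hI
    rw [mul_inv_cancel_left] at h5
    exact h5

theorem LM_ball (π : Kˣ) (g : GL (Fin n) K) (m : ℤ) : bl hv π (LM hv g) m = LM hv (dg π (fun _ => -m) * g) := by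
  unfold bl
  rw [sc_eq_map, LM_sc hv]

theorem vd_le {g g' : GL (Fin n) K} (h : LM hv g ≤ LM hv g') : vd v g' ≤ vd v g := by
  have h1 := (LM_le_iff hv).1 h
  have h2 : v (g'⁻¹ * g).det.val = vd v g - vd v g' := by
    rw [Pool.Agent.H10.RA.vdet_mul hv, Pool.Agent.H10.RA.vdet_inv hv]
    unfold vd
    ring
  have h3 : 0 ≤ v (g'⁻¹ * g).det.val := by
    have h4 := Pool.Agent.H10.RA.ge_det hv (M := (g'⁻¹ * g).val) (k := 0) h1
    rw [mul_zero] at h4
    exact h4 (g'⁻¹ * g).det.ne_zero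
  omega

theorem vd_dg (hv : IsDV v) {π : Kˣ} (hπ : v π = 1) (m : ℤ) : vd v (dg π (fun _ : Fin n => m)) = n * m := by
  unfold vd
  show v (Matrix.diagonal fun _ : Fin n => ((π ^ m : Kˣ) : K)).det = n * m
  rw [Matrix.det_diagonal, Finset.prod_const, Finset.card_univ, Fintype.card_fin]
  have h : ∀ k : ℕ, v (((π ^ m : Kˣ) : K) ^ k) = k * m := by
    intro k
    induction k with
    | zero =>
      rw [pow_zero, hv.one]
      simp
    | succ k ih =>
      rw [pow_succ, hv.mul _ _ (pow_ne_zero k (Units.ne_zero _)) (Units.ne_zero _), ih, v_zpow hv hπ]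
      push_cast
      ring
  exact h n

/-- Nakayama's lemma -/
theorem nak {π : Kˣ} (hπ : v π = 1) {M N : Submodule (Ov hv) (Fin n → K)} {k : ℕ} (hk : bl hv π M (-k) ≤ N)
    (h : M ≤ N ⊔ bl hv π M (-1)) : M ≤ N := by
  have key : ∀ j : ℕ, M ≤ N ⊔ bl hv π M (-j) := by
    intro j
    induction j with
    | zero =>
      rw [Nat.cast_zero, neg_zero, bl_zero]
      exact le_sup_right
    | succ j ih =>
      refine ih.trans (sup_le le_sup_left ?_)
      have h1 := bl_mono_left hv π h (-(j : ℤ))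
      rw [bl_sup, bl_bl] at h1
      have e : (-1 : ℤ) + -(j : ℤ) = -((j + 1 : ℕ) : ℤ) := by
        push_cast
        ring
      rw [e] at h1
      refine h1.trans (sup_le_sup ?_ le_rfl)
      have h2 := bl_mono hv hπ N (show -(j : ℤ) ≤ 0 by omega)
      rwa [bl_zero] at h2
  exact (key k).trans (sup_le le_rfl hk)

/-- a sum of lattices is a sum of at most `n + 1` of them -/
theorem exists_sub {π : Kˣ} (hπ : v π = 1) {ι : Type} (s : Finset ι) (hs : s.Nonempty)
    (Λ : ι → Submodule (Ov hv) (Fin n → K)) (hΛ : ∀ a ∈ s, ∃ g, Λ a = LM hv g) :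
    ∃ s' ⊆ s, s'.Nonempty ∧ s'.card ≤ n + 1 ∧ (⨆ a ∈ s', Λ a) = ⨆ a ∈ s, Λ a := by
  classical
  -- sums of lattices are lattices
  have hsum : ∀ (t : Finset ι), t ⊆ s → ∀ g : GL (Fin n) K, ∃ g' : GL (Fin n) K, (⨆ a ∈ t, Λ a) ⊔ LM hv g = LM hv g' := by
    intro t
    induction t using Finset.induction_on with
    | empty =>
      intro _ g
      exact ⟨g, by simp⟩
    | insert a t ha ih =>
      intro hts g
      obtain ⟨g1, h1⟩ := ih (fun x hx => hts (Finset.mem_insert_of_mem hx)) g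
      obtain ⟨g2, h2⟩ := hΛ a (hts (Finset.mem_insert_self a t))
      obtain ⟨g3, h3⟩ := exists_sup (hv := hv) hπ g2 g1
      refine ⟨g3, ?_⟩
      rw [Finset.iSup_insert, sup_assoc, h1, h2, h3]
  obtain ⟨a0, ha0⟩ := hs
  obtain ⟨g0, hg0⟩ := hΛ a0 ha0
  obtain ⟨gM, hgM⟩ : ∃ gM : GL (Fin n) K, (⨆ a ∈ s, Λ a) = LM hv gM := by
    obtain ⟨gM, h⟩ := hsum s (Finset.Subset.refl s) g0
    refine ⟨gM, ?_⟩
    rw [← h, ← hg0]
    exact (sup_eq_left.2 (le_iSup₂_of_le a0 ha0 le_rfl)).symm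
  obtain ⟨M, hM⟩ : ∃ M, M = ⨆ a ∈ s, Λ a := ⟨_, rfl⟩
  have hMg : M = LM hv gM := hM.trans hgM
  have hle : ∀ a ∈ s, Λ a ≤ M := fun a ha => by
    rw [hM]
    exact le_iSup₂_of_le a ha le_rfl
  have hb1 : bl hv π M (-1) ≤ M := by
    have h := bl_mono hv hπ M (show (-1 : ℤ) ≤ 0 by norm_num)
    rwa [bl_zero] at h
  -- greedy choice
  have key : ∀ k : ℕ, k ≤ n → ∃ t ⊆ s, t.card ≤ k ∧ ((⨆ a ∈ t, Λ a) ⊔ bl hv π M (-1) = M ∨
      ∃ g' : GL (Fin n) K, (⨆ a ∈ t, Λ a) ⊔ bl hv π M (-1) = LM hv g' ∧ vd v g' ≤ vd v gM + n - k) := by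
    intro k
    induction k with
    | zero =>
      intro _
      refine ⟨∅, Finset.empty_subset s, le_rfl, Or.inr ⟨dg π (fun _ => -(-1)) * gM, ?_, ?_⟩⟩
      · rw [← LM_ball, ← hMg]
        simp
      · have h1 : vd v (dg π (fun _ : Fin n => -(-1)) * gM) = vd v (dg π (fun _ : Fin n => -(-1))) + vd v gM :=
          Pool.Agent.H10.RA.vdet_mul hv _ _
        rw [h1, vd_dg hv hπ]
        push_cast
        linarith
    | succ k ih =>
      intro hk
      obtain ⟨t, hts, htk, h1 | ⟨g', h1, h2⟩⟩ := ih (by omega)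
      · exact ⟨t, hts, by omega, Or.inl h1⟩
      · by_cases heq : (⨆ a ∈ t, Λ a) ⊔ bl hv π M (-1) = M
        · exact ⟨t, hts, by omega, Or.inl heq⟩
        · obtain ⟨a, ha, hna⟩ : ∃ a ∈ s, ¬ Λ a ≤ (⨆ a ∈ t, Λ a) ⊔ bl hv π M (-1) := by
            by_contra hcon
            push Not at hcon
            apply heq
            refine le_antisymm (sup_le (iSup₂_le fun a ha => hle a (hts ha)) hb1) ?_
            rw [hM]
            rw [hM] at hcon
            exact iSup₂_le hcon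
          refine ⟨insert a t, Finset.insert_subset ha hts, (Finset.card_insert_le a t).trans (by omega), Or.inr ?_⟩
          obtain ⟨g'', h3⟩ := hsum (insert a t) (Finset.insert_subset ha hts) (dg π (fun _ => -(-1)) * gM)
          rw [← LM_ball, ← hMg] at h3
          refine ⟨g'', h3, ?_⟩
          have h4 : (⨆ a ∈ t, Λ a) ⊔ bl hv π M (-1) ≤ (⨆ x ∈ insert a t, Λ x) ⊔ bl hv π M (-1) :=
            sup_le_sup (by rw [Finset.iSup_insert]; exact le_sup_right) le_rfl
          have h5 : Λ a ≤ (⨆ x ∈ insert a t, Λ x) ⊔ bl hv π M (-1) := by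
            rw [Finset.iSup_insert, sup_assoc]
            exact le_sup_left
          have h6 : (⨆ a ∈ t, Λ a) ⊔ bl hv π M (-1) ≠ (⨆ x ∈ insert a t, Λ x) ⊔ bl hv π M (-1) := by
            intro h
            rw [← h] at h5
            exact hna h5
          rw [h1, h3] at h4 h6
          have h7 := vd_lt h4 h6
          push_cast at h2 ⊢
          omega
  obtain ⟨t, hts, htk, h1⟩ := key n le_rfl
  have h2 : (⨆ a ∈ t, Λ a) ⊔ bl hv π M (-1) = M := by
    rcases h1 with h1 | ⟨g', h1, h2⟩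
    · exact h1
    · by_contra hne
      have h3 : (⨆ a ∈ t, Λ a) ⊔ bl hv π M (-1) ≤ M := sup_le (iSup₂_le fun a ha => hle a (hts ha)) hb1
      rw [h1, hMg] at h3 hne
      have h4 := vd_lt h3 hne
      omega
  refine ⟨insert a0 t, Finset.insert_subset ha0 hts, Finset.insert_nonempty a0 t,
    (Finset.card_insert_le a0 t).trans (by omega), ?_⟩
  have hN : (⨆ a ∈ insert a0 t, Λ a) ≤ M := iSup₂_le fun a ha => hle a (Finset.insert_subset ha0 hts ha)
  have hN0 : Λ a0 ≤ ⨆ a ∈ insert a0 t, Λ a := le_iSup₂_of_le a0 (Finset.mem_insert_self a0 t) le_rfl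
  rw [← hM]
  refine le_antisymm hN ?_
  -- some multiple of `M` is contained in `Λ a0`
  obtain ⟨k, hk⟩ : ∃ k : ℕ, bl hv π M (-k) ≤ Λ a0 := by
    obtain ⟨U, U', d, hU, hU', h⟩ := smith hv hπ (g0⁻¹ * gM)
    obtain ⟨k, hk⟩ : ∃ k : ℕ, ∀ i, -(k : ℤ) ≤ d i := by
      refine ⟨∑ i, (d i).natAbs, fun i => ?_⟩
      have h5 : (d i).natAbs ≤ ∑ i, (d i).natAbs := Finset.single_le_sum (f := fun i => (d i).natAbs) (fun _ _ => Nat.zero_le _) (Finset.mem_univ i)
      omega
    refine ⟨k, ?_⟩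
    rw [hMg, hg0, LM_ball, LM_le_iff]
    have h6 : g0⁻¹ * (dg π (fun _ : Fin n => -(-(k : ℤ))) * gM) = U * dg π (fun i => (k : ℤ) + d i) * U' := by
      have hc : ∀ x : GL (Fin n) K, x * dg π (fun _ : Fin n => (k : ℤ)) = dg π (fun _ : Fin n => (k : ℤ)) * x := by
        intro x
        apply Units.ext
        rw [Units.val_mul, Units.val_mul, dg_val]
        ext i j
        rw [Matrix.mul_diagonal, Matrix.diagonal_mul, mul_comm]
      have hd : dg π (fun i => (k : ℤ) + d i) = dg π (fun _ : Fin n => (k : ℤ)) * dg π d := by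
        apply Units.ext
        rw [Units.val_mul, dg_val, dg_val, dg_val, Matrix.diagonal_mul_diagonal]
        congr 1
        funext i
        rw [← Units.val_mul, ← zpow_add]
      rw [neg_neg, ← mul_assoc, hc, mul_assoc, h, hd, ← mul_assoc, ← mul_assoc, ← mul_assoc, hc]
    rw [h6]
    have h7 : ∀ i j, Ge v 0 ((dg π (fun i => (k : ℤ) + d i)).val i j) := by
      intro i j
      rw [dg_val, Matrix.diagonal_apply]
      split_ifs with hij
      · intro _
        rw [v_zpow hv hπ]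
        have := hk i
        omega
      · exact ge_zero hv 0
    intro i j
    have h8 := Pool.Agent.H10.RA.geN_mul hv (Pool.Agent.H10.RA.geN_mul hv hU.1 h7) hU'.1 i j
    rw [add_zero, add_zero] at h8
    exact h8
  refine nak hπ (hk.trans hN0) ?_
  refine h2.symm.le.trans (sup_le_sup ?_ le_rfl)
  rw [Finset.iSup_insert]
  exact le_sup_right

end Pool.Agent.H76.FL
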