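import Pool.Agent.H98.RH.Defs

/-!
# H76 FL, Sc: multiples of modules over the valuation ring; vector subspaces

`sc c Λ = c Λ`, `bl π L m = π ^ (- m) L`, increasing in `m`.
-/

set_option autoImplicit false

namespace Pool.Agent.H76.FL

open Pool.Agent.H54.TT Pool.Agent.H98.RH

variable {K : Type} [Field K] {v : K → ℤ} (hv : IsDV v) {n : ℕ}

/-- the multiple `c Λ` -/
def sc (c : Kˣ) (Λ : Submodule (Ov hv) (Fin n → K)) : Submodule (Ov hv) (Fin n → K) where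
  carrier := {x | ((c⁻¹ : Kˣ) : K) • x ∈ Λ}
  add_mem' := by
    intro x y hx hy
    show ((c⁻¹ : Kˣ) : K) • (x + y) ∈ Λ
    rw [smul_add]
    exact Λ.add_mem hx hy
  zero_mem' := by
    show ((c⁻¹ : Kˣ) : K) • (0 : Fin n → K) ∈ Λ
    rw [smul_zero]
    exact Λ.zero_mem
  smul_mem' := by
    intro a x hx
    show ((c⁻¹ : Kˣ) : K) • ((a : K) • x) ∈ Λ
    rw [smul_comm]
    exact Λ.smul_mem a hx

theorem mem_sc {c : Kˣ} {Λ : Submodule (Ov hv) (Fin n → K)} {x : Fin n → K} :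
    x ∈ sc hv c Λ ↔ ((c⁻¹ : Kˣ) : K) • x ∈ Λ := Iff.rfl

/-- the definition of `ev` -/
theorem sc_eq_map (c : Kˣ) (Λ : Submodule (Ov hv) (Fin n → K)) :
    sc hv c Λ = Λ.map (((LinearMap.lsmul K (Fin n → K)) (c : K)).restrictScalars (Ov hv)) := by
  ext x
  rw [mem_sc, Submodule.mem_map]
  constructor
  · intro h
    refine ⟨_, h, ?_⟩
    show (c : K) • ((c⁻¹ : Kˣ) : K) • x = x
    rw [smul_smul, Units.mul_inv, one_smul]
  · rintro ⟨y, hy, rfl⟩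
    show ((c⁻¹ : Kˣ) : K) • ((c : K) • y) ∈ Λ
    rw [smul_smul, Units.inv_mul, one_smul]
    exact hy

theorem sc_one (Λ : Submodule (Ov hv) (Fin n → K)) : sc hv 1 Λ = Λ := by
  ext x
  rw [mem_sc, inv_one, Units.val_one, one_smul]

theorem sc_mul (c d : Kˣ) (Λ : Submodule (Ov hv) (Fin n → K)) : sc hv (c * d) Λ = sc hv c (sc hv d Λ) := by
  ext x
  rw [mem_sc, mem_sc, mem_sc, smul_smul, mul_inv_rev, Units.val_mul]

theorem sc_mono (c : Kˣ) {Λ Λ' : Submodule (Ov hv) (Fin n → K)} (h : Λ ≤ Λ') : sc hv c Λ ≤ sc hv c Λ' := fun _ hx => h hx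

theorem sc_le_iff (c : Kˣ) {Λ Λ' : Submodule (Ov hv) (Fin n → K)} : sc hv c Λ ≤ sc hv c Λ' ↔ Λ ≤ Λ' := by
  refine ⟨fun h => ?_, sc_mono hv c⟩
  have h1 := sc_mono hv c⁻¹ h
  rwa [← sc_mul, ← sc_mul, inv_mul_cancel, sc_one, sc_one] at h1

theorem sc_inf (c : Kˣ) (Λ Λ' : Submodule (Ov hv) (Fin n → K)) : sc hv c (Λ ⊓ Λ') = sc hv c Λ ⊓ sc hv c Λ' := rfl

theorem sc_sup (c : Kˣ) (Λ Λ' : Submodule (Ov hv) (Fin n → K)) : sc hv c (Λ ⊔ Λ') = sc hv c Λ ⊔ sc hv c Λ' := by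
  rw [sc_eq_map, sc_eq_map, sc_eq_map, Submodule.map_sup]

/-- a vector subspace as a module over the valuation ring -/
def vs (W : Submodule K (Fin n → K)) : Submodule (Ov hv) (Fin n → K) := W.restrictScalars (Ov hv)

theorem mem_vs {W : Submodule K (Fin n → K)} {x : Fin n → K} : x ∈ vs hv W ↔ x ∈ W := Iff.rfl

theorem sc_vs (c : Kˣ) (W : Submodule K (Fin n → K)) : sc hv c (vs hv W) = vs hv W := by
  ext x
  rw [mem_sc, mem_vs, mem_vs]
  constructor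
  · intro h
    have h1 := W.smul_mem (c : K) h
    rwa [smul_smul, Units.mul_inv, one_smul] at h1
  · intro h
    exact W.smul_mem _ h

/-- the multiple `π ^ (- m) Λ` -/
def bl (π : Kˣ) (Λ : Submodule (Ov hv) (Fin n → K)) (m : ℤ) : Submodule (Ov hv) (Fin n → K) := sc hv (π ^ (-m)) Λ

theorem bl_zero (π : Kˣ) (Λ : Submodule (Ov hv) (Fin n → K)) : bl hv π Λ 0 = Λ := by
  unfold bl
  rw [neg_zero, zpow_zero, sc_one]

theorem bl_bl (π : Kˣ) (Λ : Submodule (Ov hv) (Fin n → K)) (m k : ℤ) : bl hv π (bl hv π Λ m) k = bl hv π Λ (m + k) := by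
  unfold bl
  rw [← sc_mul, ← zpow_add]
  congr 2
  ring

theorem bl_mono_left (π : Kˣ) {Λ Λ' : Submodule (Ov hv) (Fin n → K)} (h : Λ ≤ Λ') (m : ℤ) : bl hv π Λ m ≤ bl hv π Λ' m :=
  sc_mono hv _ h

theorem bl_le_iff (π : Kˣ) {Λ Λ' : Submodule (Ov hv) (Fin n → K)} (m : ℤ) : bl hv π Λ m ≤ bl hv π Λ' m ↔ Λ ≤ Λ' :=
  sc_le_iff hv _

theorem bl_inf (π : Kˣ) (Λ Λ' : Submodule (Ov hv) (Fin n → K)) (m : ℤ) :
    bl hv π (Λ ⊓ Λ') m = bl hv π Λ m ⊓ bl hv π Λ' m := rfl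

theorem bl_sup (π : Kˣ) (Λ Λ' : Submodule (Ov hv) (Fin n → K)) (m : ℤ) :
    bl hv π (Λ ⊔ Λ') m = bl hv π Λ m ⊔ bl hv π Λ' m := sc_sup hv _ _ _

theorem bl_vs (π : Kˣ) (W : Submodule K (Fin n → K)) (m : ℤ) : bl hv π (vs hv W) m = vs hv W := sc_vs hv _ _

/-- `π ^ (- m) Λ` is increasing in `m` -/
theorem bl_mono {π : Kˣ} (hπ : v π = 1) (Λ : Submodule (Ov hv) (Fin n → K)) {m k : ℤ} (h : m ≤ k) :
    bl hv π Λ m ≤ bl hv π Λ k := by
  obtain ⟨j, rfl⟩ : ∃ j : ℕ, k = m + j := ⟨(k - m).toNat, by omega⟩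
  have key : ∀ j : ℕ, ∀ Λ : Submodule (Ov hv) (Fin n → K), Λ ≤ bl hv π Λ j := by
    intro j
    induction j with
    | zero =>
      intro Λ
      rw [Nat.cast_zero, bl_zero]
    | succ j ih =>
      intro Λ
      have h1 : Λ ≤ bl hv π Λ 1 := by
        intro x hx
        show (((π ^ (-1 : ℤ))⁻¹ : Kˣ) : K) • x ∈ Λ
        have e : (((π ^ (-1 : ℤ))⁻¹ : Kˣ) : K) = (π : K) := by simp
        rw [e]
        have hm : (π : K) ∈ Ov hv := by
          rw [mem_Ov]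
          intro _
          rw [hπ]
          decide
        exact Λ.smul_mem ⟨(π : K), hm⟩ hx
      have h2 := ih (bl hv π Λ 1)
      rw [bl_bl] at h2
      have e : (1 : ℤ) + (j : ℤ) = ((j + 1 : ℕ) : ℤ) := by
        push_cast
        ring
      rw [e] at h2
      exact h1.trans h2
  have h1 := key j (bl hv π Λ m)
  rwa [bl_bl] at h1

end Pool.Agent.H76.FL
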