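import Pool.Agent.H76.FL.Nak0

/-!
# H76 FL, Term: modules which are values of lattice terms of bounded size

`TS P N i`: the terms of depth `i` in the terms `π ^ k h`, `|k| ≤ N`, `h ∈ P`. `Cl P N i Λ`: `Λ` is the value of such a term.
-/

set_option autoImplicit false

namespace Pool.Agent.H76.FL

open Pool.Agent.H54.TT Pool.Agent.H25.DI
open Pool.Agent.H98.RH hiding LT

/-- lattice terms -/
abbrev Tm (H : Type) : Type := H98.RH.LT H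

/-- the terms of depth `i` -/
def TS {H : Type} (P : Set H) (N : ℕ) : ℕ → Set (Tm H)
  | 0 => {t | ∃ h ∈ P, ∃ k : ℤ, |k| ≤ N ∧ t = H98.RH.LT.sc k (H98.RH.LT.sym h)}
  | i + 1 => TS P N i ∪ {t | ∃ a ∈ TS P N i, ∃ b ∈ TS P N i, t = H98.RH.LT.sum a b ∨ t = H98.RH.LT.inf a b}

theorem ts_mono_i {H : Type} {P : Set H} {N i j : ℕ} (h : i ≤ j) : TS P N i ⊆ TS P N j := by
  induction h with
  | refl => exact subset_rfl
  | step _ ih => exact ih.trans Set.subset_union_left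

theorem ts_mono_N {H : Type} {P P' : Set H} (hP : P ⊆ P') {N N' : ℕ} (h : N ≤ N') (i : ℕ) : TS P N i ⊆ TS P' N' i := by
  induction i with
  | zero =>
    rintro t ⟨a, ha, k, hk, rfl⟩
    exact ⟨a, hP ha, k, hk.trans (by exact_mod_cast h), rfl⟩
  | succ i ih =>
    rintro t (ht | ⟨a, ha, b, hb, ht⟩)
    · exact Or.inl (ih ht)
    · exact Or.inr ⟨a, ih ha, b, ih hb, ht⟩

section

variable {K : Type} [Field K] {v : K → ℤ} (hv : IsDV v) {n : ℕ} (π : Kˣ) {H : Type} (ρ : H → GL (Fin n) K) (P : Set H)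

/-- `Λ` is the value of a term in `TS P N i` -/
def Cl (N i : ℕ) (Λ : Submodule (Ov hv) (Fin n → K)) : Prop := ∃ t ∈ TS P N i, ev hv π ρ t = Λ

variable {hv π ρ P}

theorem Cl.mono {N i N' i' : ℕ} (hN : N ≤ N') (hi : i ≤ i') {Λ : Submodule (Ov hv) (Fin n → K)} (h : Cl hv π ρ P N i Λ) :
    Cl hv π ρ P N' i' Λ := by
  obtain ⟨t, ht, e⟩ := h
  exact ⟨t, ts_mono_N subset_rfl hN i' (ts_mono_i hi ht), e⟩

theorem Cl.sup {N i : ℕ} {Λ Λ' : Submodule (Ov hv) (Fin n → K)} (h : Cl hv π ρ P N i Λ) (h' : Cl hv π ρ P N i Λ') :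
    Cl hv π ρ P N (i + 1) (Λ ⊔ Λ') := by
  obtain ⟨t, ht, rfl⟩ := h
  obtain ⟨t', ht', rfl⟩ := h'
  exact ⟨H98.RH.LT.sum t t', Or.inr ⟨t, ht, t', ht', Or.inl rfl⟩, rfl⟩

theorem Cl.inf {N i : ℕ} {Λ Λ' : Submodule (Ov hv) (Fin n → K)} (h : Cl hv π ρ P N i Λ) (h' : Cl hv π ρ P N i Λ') :
    Cl hv π ρ P N (i + 1) (Λ ⊓ Λ') := by
  obtain ⟨t, ht, rfl⟩ := h
  obtain ⟨t', ht', rfl⟩ := h'
  exact ⟨H98.RH.LT.inf t t', Or.inr ⟨t, ht, t', ht', Or.inr rfl⟩, rfl⟩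

theorem ev_sc (k : ℤ) (t : Tm H) : ev hv π ρ (H98.RH.LT.sc k t) = bl hv π (ev hv π ρ t) (-k) := by
  unfold bl
  rw [sc_eq_map, neg_neg]
  rfl

theorem cl_sym {h : H} (hh : h ∈ P) (k : ℤ) {N : ℕ} (hk : |k| ≤ N) : Cl hv π ρ P N 0 (bl hv π (LM hv (ρ h)) k) := by
  refine ⟨H98.RH.LT.sc (-k) (H98.RH.LT.sym h), ⟨h, hh, -k, by rwa [abs_neg], rfl⟩, ?_⟩
  rw [ev_sc, neg_neg]
  rfl

theorem Cl.bl {N i : ℕ} {Λ : Submodule (Ov hv) (Fin n → K)} (h : Cl hv π ρ P N i Λ) (k : ℤ) {N' : ℕ}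
    (hN : (N : ℤ) + |k| ≤ N') : Cl hv π ρ P N' i (H76.FL.bl hv π Λ k) := by
  induction i generalizing Λ with
  | zero =>
    obtain ⟨t, ⟨h, hh, j, hj, rfl⟩, rfl⟩ := h
    rw [ev_sc, bl_bl]
    exact cl_sym hh _ ((abs_add_le _ _).trans (by rw [abs_neg]; linarith))
  | succ i ih =>
    obtain ⟨t, ht | ⟨a, ha, b, hb, rfl | rfl⟩, rfl⟩ := h
    · exact (ih ⟨t, ht, rfl⟩).mono le_rfl (Nat.le_succ i)
    · have e : ev hv π ρ (H98.RH.LT.sum a b) = ev hv π ρ a ⊔ ev hv π ρ b := rfl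
      rw [e, bl_sup]
      exact (ih ⟨a, ha, rfl⟩).sup (ih ⟨b, hb, rfl⟩)
    · have e : ev hv π ρ (H98.RH.LT.inf a b) = ev hv π ρ a ⊓ ev hv π ρ b := rfl
      rw [e, bl_inf]
      exact (ih ⟨a, ha, rfl⟩).inf (ih ⟨b, hb, rfl⟩)

/-- the values of the terms are lattices -/
theorem Cl.lat (hπ : v π = 1) {N i : ℕ} {Λ : Submodule (Ov hv) (Fin n → K)} (h : Cl hv π ρ P N i Λ) :
    ∃ g : GL (Fin n) K, Λ = LM hv g := by
  induction i generalizing Λ with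
  | zero =>
    obtain ⟨t, ⟨h, hh, j, hj, rfl⟩, rfl⟩ := h
    rw [ev_sc]
    exact ⟨_, LM_ball π (ρ h) (-j)⟩
  | succ i ih =>
    obtain ⟨t, ht | ⟨a, ha, b, hb, rfl | rfl⟩, rfl⟩ := h
    · exact ih ⟨t, ht, rfl⟩
    · obtain ⟨g, hg⟩ := ih ⟨a, ha, rfl⟩
      obtain ⟨g', hg'⟩ := ih ⟨b, hb, rfl⟩
      have e : ev hv π ρ (H98.RH.LT.sum a b) = ev hv π ρ a ⊔ ev hv π ρ b := rfl
      rw [e, hg, hg']
      exact exists_sup hπ g g'
    · obtain ⟨g, hg⟩ := ih ⟨a, ha, rfl⟩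
      obtain ⟨g', hg'⟩ := ih ⟨b, hb, rfl⟩
      have e : ev hv π ρ (H98.RH.LT.inf a b) = ev hv π ρ a ⊓ ev hv π ρ b := rfl
      rw [e, hg, hg']
      exact exists_inf hπ g g'

theorem Cl.finsup {N i : ℕ} {ι : Type} (s : Finset ι) (hs : s.Nonempty) {Λ : ι → Submodule (Ov hv) (Fin n → K)}
    (h : ∀ a ∈ s, Cl hv π ρ P N i (Λ a)) : Cl hv π ρ P N (i + s.card) (⨆ a ∈ s, Λ a) := by
  classical
  induction hs using Finset.Nonempty.cons_induction with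
  | singleton a =>
    have e : (⨆ x ∈ ({a} : Finset ι), Λ x) = Λ a := by simp
    rw [e]
    exact (h a (Finset.mem_singleton_self a)).mono le_rfl (Nat.le_add_right _ _)
  | cons a s ha hs ih =>
    have e : (⨆ x ∈ Finset.cons a s ha, Λ x) = Λ a ⊔ ⨆ x ∈ s, Λ x := by
      rw [Finset.cons_eq_insert, Finset.iSup_insert]
    rw [e, Finset.card_cons, ← add_assoc]
    refine Cl.sup ((h a (Finset.mem_cons_self a s)).mono le_rfl (Nat.le_add_right _ _)) ?_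
    exact ih fun x hx => h x (Finset.mem_cons_of_mem hx)

/-- arbitrary finite sums: the depth grows by `n + 1` only -/
theorem Cl.finsup' (hπ : v π = 1) {N i : ℕ} {ι : Type} (s : Finset ι) (hs : s.Nonempty)
    {Λ : ι → Submodule (Ov hv) (Fin n → K)} (h : ∀ a ∈ s, Cl hv π ρ P N i (Λ a)) :
    Cl hv π ρ P N (i + (n + 1)) (⨆ a ∈ s, Λ a) := by
  obtain ⟨s', h1, h2, h3, h4⟩ := exists_sub hπ s hs Λ fun a ha => (h a ha).lat hπ
  rw [← h4]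
  exact (Cl.finsup s' h2 fun a ha => h a (h1 ha)).mono le_rfl (by omega)

end

end Pool.Agent.H76.FL
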